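import Pool.Agent.W5h12.CUB.Untangle

set_option autoImplicit false

/-!
# The tube has a plane straight-line drawing
-/

namespace Pool.Agent.W5h12.CUB

open Set

/-- the point at parameter `x` on the ray number `r` -/
def ray (r : ℕ) (x : ℝ) : ℝ × ℝ := if r = 0 then (x, 0) else if r = 1 then (0, x) else (-x, -x)

/-- the drawing -/
def pos (i : ℕ) : ℝ × ℝ := ray ((i / 2) % 3) i

/-- the coordinates `(α, β)` of a point in the closed sector between the rays `r` and `r + 1` -/
def Sec (r : ℕ) (α β : ℝ) (z : ℝ × ℝ) : Prop :=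
  0 ≤ α ∧ 0 ≤ β ∧ z = ray r α + ray ((r + 1) % 3) β

theorem Sec.same {r : ℕ} (hr : r < 3) {α β α' β' : ℝ} {z : ℝ × ℝ} (h : Sec r α β z)
    (h' : Sec r α' β' z) : α = α' ∧ β = β' := by
  obtain ⟨h1, h2, h3⟩ := h
  obtain ⟨h1', h2', h3'⟩ := h'
  rw [h3] at h3'
  rw [Prod.ext_iff] at h3'
  have : r = 0 ∨ r = 1 ∨ r = 2 := by omega
  rcases this with rfl | rfl | rfl <;> simp [ray] at h3' <;> constructor <;> linarith [h3'.1, h3'.2]

theorem Sec.next {r : ℕ} (hr : r < 3) {α β α' β' : ℝ} {z : ℝ × ℝ} (h : Sec r α β z)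
    (h' : Sec ((r + 1) % 3) α' β' z) : α = 0 ∧ β = α' ∧ β' = 0 := by
  obtain ⟨h1, h2, h3⟩ := h
  obtain ⟨h1', h2', h3'⟩ := h'
  rw [h3] at h3'
  rw [Prod.ext_iff] at h3'
  have : r = 0 ∨ r = 1 ∨ r = 2 := by omega
  rcases this with rfl | rfl | rfl <;> simp [ray] at h3' <;> refine ⟨?_, ?_, ?_⟩ <;>
    linarith [h3'.1, h3'.2]

/-- normal form of an edge: on a ray -/
structure RayE (N r a b : ℕ) : Prop where
  hr : r < 3
  hb : b < N
  hab : a < b
  hbr : (b / 2) % 3 = r
  har : a = 0 ∨ (a / 2) % 3 = r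
  free : ∀ w, a < w → w < b → (w / 2) % 3 ≠ r

/-- normal form of an edge: from a ray to the next -/
structure CrossE (N r a b : ℕ) : Prop where
  hr : r < 3
  ha : a < N
  hb : b < N
  hodd : a % 2 = 1
  har : (a / 2) % 3 = r
  hbr : (b / 2) % 3 = (r + 1) % 3
  typ : b = a + 1 ∨ (b + 1 = N ∧ a + 3 = N) ∨ (a + 1 = N ∧ b + 5 = N)

theorem CrossE.mono {N r a b a' b' : ℕ} (hN : N % 2 = 0) (h : CrossE N r a b) (h' : CrossE N r a' b') :
    (a ≤ a' ∧ b ≤ b') ∨ (a' ≤ a ∧ b' ≤ b) := by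
  have h1 := h.typ
  have h2 := h'.typ
  have h3 := h.har
  have h4 := h'.har
  have h5 := h.hodd
  have h6 := h'.hodd
  have h7 := h.hbr
  have h8 := h'.hbr
  have h9 := h.hb
  have h10 := h'.hb
  have h11 := h.ha
  have h12 := h'.ha
  omega

theorem TA.normal {N i j : ℕ} (hN : N % 2 = 0) (hj : j < N) (h : TA N i j) :
    (∃ r, RayE N r i j) ∨ (∃ r, CrossE N r i j) ∨ (∃ r, CrossE N r j i) := by
  unfold TA at h
  by_cases hodd : i % 2 = 0
  · -- a ray edge
    left
    refine ⟨(j / 2) % 3, ⟨by omega, hj, by omega, rfl, by omega, ?_⟩⟩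
    intro w hw hw'
    omega
  · by_cases h5 : j = i + 5
    · left
      refine ⟨(j / 2) % 3, ⟨by omega, hj, by omega, rfl, by omega, ?_⟩⟩
      intro w hw hw'
      omega
    · right
      by_cases h3 : i + 5 = N
      · by_cases h2 : j = i + 1
        · left
          exact ⟨(i / 2) % 3, ⟨by omega, by omega, by omega, by omega, rfl, by omega, by omega⟩⟩
        · right
          exact ⟨(j / 2) % 3, ⟨by omega, by omega, by omega, by omega, rfl, by omega, by omega⟩⟩
      · left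
        exact ⟨(i / 2) % 3, ⟨by omega, by omega, by omega, by omega, rfl, by omega, by omega⟩⟩

theorem ray_zero (r : ℕ) : ray r 0 = 0 := by
  unfold ray
  split_ifs <;> simp

theorem pos_zero : pos 0 = 0 := by
  simp [pos, ray]

theorem ray_comb (r : ℕ) (a b u v : ℝ) : u • ray r a + v • ray r b = ray r (u * a + v * b) := by
  unfold ray
  split_ifs
  · ext <;> simp
  · ext <;> simp
  · ext
    · simp; ring
    · simp; ring

theorem ray_smul (r : ℕ) (a u : ℝ) : u • ray r a = ray r (u * a) := by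
  have := ray_comb r a 0 u 0
  simpa using this

theorem ray_inj {r : ℕ} {a b : ℝ} (h : ray r a = ray r b) : a = b := by
  unfold ray at h
  split_ifs at h
  · exact (Prod.ext_iff.1 h).1
  · exact (Prod.ext_iff.1 h).2
  · have := (Prod.ext_iff.1 h).1
    simp only at this
    linarith

/-- a point of a ray edge -/
theorem RayE.pt {N r a b : ℕ} (h : RayE N r a b) {z : ℝ × ℝ} (hz : z ∈ segment ℝ (pos a) (pos b)) :
    ∃ γ : ℝ, (a : ℝ) ≤ γ ∧ γ ≤ b ∧ z = ray r γ := by
  have ha : pos a = ray r a := by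
    rcases h.har with h0 | h0
    · subst h0
      rw [pos_zero]
      simp [ray_zero]
    · rw [pos, h0]
  have hb : pos b = ray r b := by rw [pos, h.hbr]
  rw [ha, hb] at hz
  obtain ⟨u, v, hu, hv, huv, rfl⟩ := hz
  rw [ray_comb]
  obtain rfl : u = 1 - v := by linarith
  have hab : (a : ℝ) ≤ b := by exact_mod_cast h.hab.le
  have h1 := mul_nonneg hv (sub_nonneg.2 hab)
  have h2 := mul_nonneg hu (sub_nonneg.2 hab)
  exact ⟨_, by linarith, by linarith, rfl⟩

/-- a point of a cross edge -/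
theorem CrossE.pt {N r a b : ℕ} (h : CrossE N r a b) {z : ℝ × ℝ}
    (hz : z ∈ segment ℝ (pos a) (pos b)) :
    ∃ t : ℝ, 0 ≤ t ∧ t ≤ 1 ∧ Sec r ((1 - t) * a) (t * b) z := by
  have ha : pos a = ray r a := by rw [pos, h.har]
  have hb : pos b = ray ((r + 1) % 3) b := by rw [pos, h.hbr]
  rw [ha, hb] at hz
  obtain ⟨u, v, hu, hv, huv, rfl⟩ := hz
  obtain rfl : u = 1 - v := by linarith
  refine ⟨v, hv, by linarith, by positivity, by positivity, ?_⟩
  rw [ray_smul, ray_smul]

theorem ray_sec {r : ℕ} {γ : ℝ} (hγ : 0 ≤ γ) : Sec r γ 0 (ray r γ) := by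
  refine ⟨hγ, le_rfl, ?_⟩
  rw [ray_zero, add_zero]

theorem ray_sec' {r : ℕ} {γ : ℝ} (hγ : 0 ≤ γ) : Sec ((r + 2) % 3) 0 γ (ray (r % 3) γ) := by
  refine ⟨le_rfl, hγ, ?_⟩
  rw [ray_zero, zero_add]
  congr 1
  omega

/-- two points on rays coincide only if they are on the same ray at the same place, or both are
the origin -/
theorem ray_eq {r r' : ℕ} (hr : r < 3) (hr' : r' < 3) {γ γ' : ℝ} (hγ : 0 ≤ γ) (hγ' : 0 ≤ γ')
    (h : ray r γ = ray r' γ') : (r = r' ∧ γ = γ') ∨ (γ = 0 ∧ γ' = 0) := by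
  rw [Prod.ext_iff] at h
  have h1 : r = 0 ∨ r = 1 ∨ r = 2 := by omega
  have h2 : r' = 0 ∨ r' = 1 ∨ r' = 2 := by omega
  rcases h1 with rfl | rfl | rfl <;> rcases h2 with rfl | rfl | rfl <;> simp [ray] at h <;>
    first
    | (left; exact ⟨rfl, by linarith⟩)
    | (right; constructor <;> linarith [h.1, h.2])

/-- a point of a cross edge on a ray is one of its endpoints -/
theorem CrossE.on_ray {N r a b : ℕ} (h : CrossE N r a b) {r' : ℕ} (hr' : r' < 3) {γ : ℝ}
    (hγ : 0 ≤ γ) (hz : ray r' γ ∈ segment ℝ (pos a) (pos b)) :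
    (r' = r ∧ γ = a) ∨ (r' = (r + 1) % 3 ∧ γ = b) := by
  obtain ⟨t, ht0, ht1, hs⟩ := h.pt hz
  have ha0 : (0 : ℝ) < a := by
    have := h.hodd
    have : 0 < a := by omega
    exact_mod_cast this
  have hb0 : (0 : ℝ) < b := by
    have := h.typ
    have h1 := h.hodd
    have h2 := h.har
    have h3 := h.hbr
    have : 0 < b := by
      by_contra hcon
      have : b = 0 := by omega
      subst this
      omega
    exact_mod_cast this
  have h3 : r' = r ∨ r' = (r + 1) % 3 ∨ r' = (r + 2) % 3 := by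
    have := h.hr
    omega
  rcases h3 with rfl | rfl | rfl
  · have := (ray_sec (r := r') hγ).same h.hr hs
    left
    refine ⟨rfl, ?_⟩
    have ht : t = 0 := by
      rcases mul_eq_zero.1 this.2.symm with h' | h'
      · exact h'
      · linarith
    rw [ht] at this
    simpa using this.1
  · have h1 := (ray_sec (r := (r + 1) % 3) hγ)
    have := hs.next h.hr h1
    right
    refine ⟨rfl, ?_⟩
    have ht : t = 1 := by
      rcases mul_eq_zero.1 this.1 with h' | h'
      · linarith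
      · linarith
    rw [ht] at this
    simpa using this.2.1.symm
  · exfalso
    have h1 := (ray_sec (r := (r + 2) % 3) hγ)
    have hs' : Sec (((r + 2) % 3 + 1) % 3) ((1 - t) * a) (t * b) (ray ((r + 2) % 3) γ) := by
      have hr := h.hr
      rwa [show ((r + 2) % 3 + 1) % 3 = r by omega]
    have := h1.next (by omega) hs'
    have e1 : t = 0 := by
      rcases mul_eq_zero.1 this.2.2 with h' | h'
      · exact h'
      · linarith
    have e2 := this.2.1
    rw [e1] at e2
    linarith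

theorem ray_ray {N : ℕ} {r a b r' a' b' : ℕ} (h : RayE N r a b) (h' : RayE N r' a' b')
    (hne : ¬ (a = a' ∧ b = b')) {z : ℝ × ℝ} (hz : z ∈ segment ℝ (pos a) (pos b))
    (hz' : z ∈ segment ℝ (pos a') (pos b')) :
    ∃ v, (v = a ∨ v = b) ∧ (v = a' ∨ v = b') ∧ z = pos v := by
  obtain ⟨γ, h1, h2, rfl⟩ := h.pt hz
  obtain ⟨γ', h1', h2', he⟩ := h'.pt hz'
  have ha : (0 : ℝ) ≤ a := by positivity
  have ha' : (0 : ℝ) ≤ a' := by positivity
  rcases ray_eq h.hr h'.hr (ha.trans h1) (ha'.trans h1') he with ⟨hr, hγ⟩ | ⟨hγ, hγ'⟩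
  · subst hr
    subst hγ
    have hor : b ≤ a' ∨ b' ≤ a := by
      by_contra hcon
      push Not at hcon
      obtain ⟨hc1, hc2⟩ := hcon
      have f := h.free
      have f' := h'.free
      rcases Nat.lt_trichotomy a a' with hlt | heq | hlt
      · refine f a' hlt hc1 ?_
        rcases h'.har with h0 | h0
        · omega
        · exact h0
      · rcases Nat.lt_trichotomy b b' with hlt' | heq' | hlt'
        · exact f' b (by omega) hlt' h.hbr
        · exact hne ⟨heq, heq'⟩
        · exact f b' (by omega) hlt' h'.hbr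
      · refine f' a hlt hc2 ?_
        rcases h.har with h0 | h0
        · omega
        · exact h0
    rcases hor with hor | hor
    · have hba : (b : ℝ) ≤ a' := by exact_mod_cast hor
      have hγb : γ = b := le_antisymm h2 (hba.trans h1')
      have hba' : b = a' := by
        have : (b : ℝ) = a' := le_antisymm hba (by rw [← hγb]; exact h1')
        exact_mod_cast this
      refine ⟨b, Or.inr rfl, Or.inl hba', ?_⟩
      rw [pos, h.hbr, hγb]
    · have hba : (b' : ℝ) ≤ a := by exact_mod_cast hor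
      have hγb : γ = b' := le_antisymm h2' (hba.trans h1)
      have hba' : b' = a := by
        have : (b' : ℝ) = a := le_antisymm hba (by rw [← hγb]; exact h1)
        exact_mod_cast this
      refine ⟨b', Or.inl hba', Or.inr rfl, ?_⟩
      rw [pos, h'.hbr, hγb]
  · have e1 : a = 0 := by
      have : (a : ℝ) = 0 := le_antisymm (by linarith) ha
      exact_mod_cast this
    have e2 : a' = 0 := by
      have : (a' : ℝ) = 0 := le_antisymm (by linarith) ha'
      exact_mod_cast this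
    refine ⟨0, Or.inl e1.symm, Or.inl e2.symm, ?_⟩
    rw [pos_zero, hγ, ray_zero]

theorem ray_cross {N : ℕ} {r a b r' a' b' : ℕ} (h : RayE N r a b) (h' : CrossE N r' a' b')
    {z : ℝ × ℝ} (hz : z ∈ segment ℝ (pos a) (pos b)) (hz' : z ∈ segment ℝ (pos a') (pos b')) :
    ∃ v, (v = a ∨ v = b) ∧ (v = a' ∨ v = b') ∧ z = pos v := by
  obtain ⟨γ, h1, h2, rfl⟩ := h.pt hz
  have ha : (0 : ℝ) ≤ a := by positivity
  have key : ∀ c : ℕ, (c / 2) % 3 = r → γ = c → c = a ∨ c = b := by
    intro c hc he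
    rw [he] at h1 h2
    have h1' : a ≤ c := by exact_mod_cast h1
    have h2' : c ≤ b := by exact_mod_cast h2
    by_contra hcon
    push Not at hcon
    exact h.free c (by omega) (by omega) hc
  rcases h'.on_ray h.hr (ha.trans h1) hz' with ⟨e1, e2⟩ | ⟨e1, e2⟩
  · have har := h'.har
    refine ⟨a', key a' (by omega) e2, Or.inl rfl, ?_⟩
    rw [pos, e2, har, e1]
  · have hbr := h'.hbr
    refine ⟨b', key b' (by omega) e2, Or.inr rfl, ?_⟩
    rw [pos, e2, hbr, e1]

theorem CrossE.pos_b {N r a b : ℕ} (h : CrossE N r a b) : 0 < b := by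
  have := h.typ
  have h1 := h.hodd
  have h2 := h.har
  have h3 := h.hbr
  by_contra hcon
  have : b = 0 := by omega
  subst this
  omega

theorem cross_same {a b a' b' : ℕ} (hab : a ≤ a') (hbb : b ≤ b') (hne : ¬ (a = a' ∧ b = b'))
    (ha0 : 0 < a) (hb0 : 0 < b) {t t' : ℝ} (ht0 : 0 ≤ t) (ht1 : t ≤ 1) (ht0' : 0 ≤ t')
    (ht1' : t' ≤ 1) (e1 : (1 - t) * a = (1 - t') * a') (e2 : t * b = t' * b') :
    (a = a' ∧ t = 0) ∨ (b = b' ∧ t = 1) := by
  have hA : (a : ℝ) ≤ a' := by exact_mod_cast hab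
  have hB : (b : ℝ) ≤ b' := by exact_mod_cast hbb
  have ha : (0 : ℝ) < a := by exact_mod_cast ha0
  have hb : (0 : ℝ) < b := by exact_mod_cast hb0
  have ha' : (0 : ℝ) < a' := lt_of_lt_of_le ha hA
  have hb' : (0 : ℝ) < b' := lt_of_lt_of_le hb hB
  -- `t ≤ t'` and `t' ≤ t`
  have h1 : t ≤ t' := by
    by_contra hcon
    push Not at hcon
    have : (1 - t) * a < (1 - t') * a' := by
      have h2 : (1 - t) * a ≤ (1 - t) * a' := mul_le_mul_of_nonneg_left hA (by linarith)
      have h3 : (1 - t) * a' < (1 - t') * a' := mul_lt_mul_of_pos_right (by linarith) ha'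
      linarith
    linarith
  have h2 : t' ≤ t := by
    by_contra hcon
    push Not at hcon
    have : t * b < t' * b' := by
      have h2 : t * b ≤ t * b' := mul_le_mul_of_nonneg_left hB (by linarith)
      have h3 : t * b' < t' * b' := mul_lt_mul_of_pos_right (by linarith) hb'
      linarith
    linarith
  obtain rfl : t = t' := le_antisymm h1 h2
  have e3 : (1 - t) * ((a' : ℝ) - a) = 0 := by linarith
  have e4 : t * ((b' : ℝ) - b) = 0 := by linarith
  rcases mul_eq_zero.1 e3 with h3 | h3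
  · right
    have ht : t = 1 := by linarith
    rcases mul_eq_zero.1 e4 with h4 | h4
    · linarith
    · exact ⟨by have : (b : ℝ) = b' := by linarith
                exact_mod_cast this, ht⟩
  · have haa : a = a' := by
      have : (a : ℝ) = a' := by linarith
      exact_mod_cast this
    rcases mul_eq_zero.1 e4 with h4 | h4
    · exact Or.inl ⟨haa, h4⟩
    · exfalso
      refine hne ⟨haa, ?_⟩
      have : (b : ℝ) = b' := by linarith
      exact_mod_cast this

theorem cross_cross {N : ℕ} (hN : N % 2 = 0) {r a b r' a' b' : ℕ} (h : CrossE N r a b)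
    (h' : CrossE N r' a' b') (hne : ¬ (a = a' ∧ b = b'))
    {z : ℝ × ℝ} (hz : z ∈ segment ℝ (pos a) (pos b)) (hz' : z ∈ segment ℝ (pos a') (pos b')) :
    ∃ v, (v = a ∨ v = b) ∧ (v = a' ∨ v = b') ∧ z = pos v := by
  obtain ⟨t, ht0, ht1, hs⟩ := h.pt hz
  obtain ⟨t', ht0', ht1', hs'⟩ := h'.pt hz'
  have ha0 : 0 < a := by have := h.hodd; omega
  have ha0' : 0 < a' := by have := h'.hodd; omega
  have hb0 := h.pos_b
  have hb0' := h'.pos_b
  have hr := h.hr
  have hr' := h'.hr
  have harR := h.har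
  have hbrR := h.hbr
  have har' := h'.har
  have hbr' := h'.hbr
  have h3 : r' = r ∨ r' = (r + 1) % 3 ∨ r = (r' + 1) % 3 := by omega
  have fin : ∀ {r a b : ℕ} {t : ℝ}, CrossE N r a b → Sec r ((1 - t) * a) (t * b) z →
      (t = 0 → z = pos a) ∧ (t = 1 → z = pos b) := by
    intro r a b t hh hss
    constructor
    · rintro rfl
      rw [hss.2.2, pos, hh.har]
      simp [ray_zero]
    · rintro rfl
      rw [hss.2.2, pos, hh.hbr]
      simp [ray_zero]
  rcases h3 with he | he | he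
  · subst he
    have hc := hs.same hr hs'
    rcases CrossE.mono hN h h' with ⟨hm1, hm2⟩ | ⟨hm1, hm2⟩
    · rcases cross_same hm1 hm2 hne ha0 hb0 ht0 ht1 ht0' ht1' hc.1 hc.2 with ⟨e1, e2⟩ | ⟨e1, e2⟩
      · exact ⟨a, Or.inl rfl, Or.inl e1, (fin h hs).1 e2⟩
      · exact ⟨b, Or.inr rfl, Or.inr e1, (fin h hs).2 e2⟩
    · rcases cross_same hm1 hm2 (fun hh => hne ⟨hh.1.symm, hh.2.symm⟩) ha0' hb0' ht0' ht1' ht0 ht1
        hc.1.symm hc.2.symm with ⟨e1, e2⟩ | ⟨e1, e2⟩
      · exact ⟨a', Or.inl e1, Or.inl rfl, (fin h' hs').1 e2⟩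
      · exact ⟨b', Or.inr e1, Or.inr rfl, (fin h' hs').2 e2⟩
  · subst he
    have hc := hs.next hr hs'
    have haR : (0 : ℝ) < a := by exact_mod_cast ha0
    have hbR' : (0 : ℝ) < b' := by exact_mod_cast hb0'
    have t1 : t = 1 := by
      rcases mul_eq_zero.1 hc.1 with hh | hh
      · linarith
      · linarith
    have t0 : t' = 0 := by
      rcases mul_eq_zero.1 hc.2.2 with hh | hh
      · exact hh
      · linarith
    have e := hc.2.1
    rw [t1, t0] at e
    have e' : b = a' := by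
      have : (b : ℝ) = a' := by linarith
      exact_mod_cast this
    exact ⟨b, Or.inr rfl, Or.inl e', (fin h hs).2 t1⟩
  · subst he
    have hc := hs'.next hr' hs
    have haR : (0 : ℝ) < a' := by exact_mod_cast ha0'
    have hbR' : (0 : ℝ) < b := by exact_mod_cast hb0
    have t1 : t' = 1 := by
      rcases mul_eq_zero.1 hc.1 with hh | hh
      · linarith
      · linarith
    have t0 : t = 0 := by
      rcases mul_eq_zero.1 hc.2.2 with hh | hh
      · exact hh
      · linarith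
    have e := hc.2.1
    rw [t1, t0] at e
    have e' : b' = a := by
      have : (b' : ℝ) = a := by linarith
      exact_mod_cast this
    exact ⟨b', Or.inl e', Or.inr rfl, (fin h' hs').2 t1⟩

theorem pos_inj {i j : ℕ} (h : pos i = pos j) : i = j := by
  unfold pos at h
  rcases ray_eq (by omega) (by omega) (by positivity) (by positivity) h with ⟨-, h1⟩ | ⟨h1, h2⟩
  · exact_mod_cast h1
  · have h1' : i = 0 := by exact_mod_cast h1
    have h2' : j = 0 := by exact_mod_cast h2
    omega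

theorem ta_meet {N : ℕ} (hN : N % 2 = 0) {i j k l : ℕ} (hj : j < N) (hl : l < N) (h : TA N i j)
    (h' : TA N k l) (hne : ¬ (i = k ∧ j = l)) {z : ℝ × ℝ}
    (hz : z ∈ segment ℝ (pos i) (pos j)) (hz' : z ∈ segment ℝ (pos k) (pos l)) :
    ∃ v, (v = i ∨ v = j) ∧ (v = k ∨ v = l) ∧ z = pos v := by
  have hij := h.lt
  have hkl := h'.lt
  have hzs := hz
  have hzs' := hz'
  rw [segment_symm] at hzs hzs'
  rcases h.normal hN hj with ⟨r, hr⟩ | ⟨r, hr⟩ | ⟨r, hr⟩ <;>
    rcases h'.normal hN hl with ⟨r', hr'⟩ | ⟨r', hr'⟩ | ⟨r', hr'⟩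
  · exact ray_ray hr hr' hne hz hz'
  · exact ray_cross hr hr' hz hz'
  · obtain ⟨v, h1, h2, h3⟩ := ray_cross hr hr' hz hzs'
    exact ⟨v, h1, h2.symm, h3⟩
  · obtain ⟨v, h1, h2, h3⟩ := ray_cross hr' hr hz' hz
    exact ⟨v, h2, h1, h3⟩
  · exact cross_cross hN hr hr' hne hz hz'
  · obtain ⟨v, h1, h2, h3⟩ := cross_cross hN hr hr' (by omega) hz hzs'
    exact ⟨v, h1, h2.symm, h3⟩
  · obtain ⟨v, h1, h2, h3⟩ := ray_cross hr' hr hz' hzs
    exact ⟨v, h2.symm, h1, h3⟩
  · obtain ⟨v, h1, h2, h3⟩ := cross_cross hN hr hr' (by omega) hzs hz'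
    exact ⟨v, h1.symm, h2, h3⟩
  · obtain ⟨v, h1, h2, h3⟩ := cross_cross hN hr hr' (by omega) hzs hzs'
    exact ⟨v, h1.symm, h2.symm, h3⟩

theorem ta_vert {N : ℕ} (hN : N % 2 = 0) {i j k : ℕ} (hj : j < N) (h : TA N i j)
    (hz : pos k ∈ segment ℝ (pos i) (pos j)) : k = i ∨ k = j := by
  have key : ∀ {r a b : ℕ}, CrossE N r a b → pos k ∈ segment ℝ (pos a) (pos b) → k = a ∨ k = b := by
    intro r a b hc hm
    unfold pos at hm
    rcases hc.on_ray (by omega) (by positivity) hm with ⟨-, h1⟩ | ⟨-, h1⟩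
    · left
      exact_mod_cast h1
    · right
      exact_mod_cast h1
  rcases h.normal hN hj with ⟨r, hr⟩ | ⟨r, hr⟩ | ⟨r, hr⟩
  · obtain ⟨γ, h1, h2, h3⟩ := hr.pt hz
    have ha : (0 : ℝ) ≤ i := by positivity
    unfold pos at h3
    rcases ray_eq (by omega) hr.hr (by positivity) (ha.trans h1) h3 with ⟨e1, e2⟩ | ⟨e1, e2⟩
    · rw [← e2] at h1 h2
      have h1' : i ≤ k := by exact_mod_cast h1
      have h2' : k ≤ j := by exact_mod_cast h2
      by_contra hcon
      push Not at hcon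
      exact hr.free k (by omega) (by omega) e1
    · left
      have e1' : k = 0 := by exact_mod_cast e1
      rw [e2] at h1
      have : (i : ℝ) = 0 := le_antisymm h1 ha
      have : i = 0 := by exact_mod_cast this
      omega
  · exact key hr hz
  · rw [segment_symm] at hz
    exact (key hr hz).symm

theorem tube_planar {N : ℕ} (hN : N % 2 = 0) : ∃ δ : Fin N → ℝ × ℝ, IsPlane (tube N) δ := by
  refine ⟨fun v => pos v, ⟨?_, ?_, ?_⟩⟩
  · intro a b hab
    exact Fin.ext (pos_inj hab)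
  · intro a b c d hab hcd hne p hp hp'
    have hne' : ¬ ((a = c ∧ b = d) ∨ (a = d ∧ b = c)) := by
      intro h
      exact hne (Sym2.eq_iff.2 h)
    have main : ∃ v : ℕ, (v = a ∨ v = b) ∧ (v = c ∨ v = d) ∧ p = pos v := by
      rcases hab with hab | hab <;> rcases hcd with hcd | hcd
      · exact ta_meet hN b.2 d.2 hab hcd (by
          intro h; exact hne' (Or.inl ⟨Fin.ext h.1, Fin.ext h.2⟩)) hp hp'
      · rw [segment_symm] at hp'
        obtain ⟨v, h1, h2, h3⟩ := ta_meet hN b.2 c.2 hab hcd (by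
          intro h; exact hne' (Or.inr ⟨Fin.ext h.1, Fin.ext h.2⟩)) hp hp'
        exact ⟨v, h1, h2.symm, h3⟩
      · rw [segment_symm] at hp
        obtain ⟨v, h1, h2, h3⟩ := ta_meet hN a.2 d.2 hab hcd (by
          intro h; exact hne' (Or.inr ⟨Fin.ext h.2, Fin.ext h.1⟩)) hp hp'
        exact ⟨v, h1.symm, h2, h3⟩
      · rw [segment_symm] at hp hp'
        obtain ⟨v, h1, h2, h3⟩ := ta_meet hN a.2 c.2 hab hcd (by
          intro h; exact hne' (Or.inl ⟨Fin.ext h.2, Fin.ext h.1⟩)) hp hp'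
        exact ⟨v, h1.symm, h2.symm, h3⟩
    obtain ⟨v, h1, h2, h3⟩ := main
    have hvN : v < N := by
      rcases h1 with h1 | h1 <;> omega
    refine ⟨⟨v, hvN⟩, ?_, ?_, h3⟩
    · rw [Sym2.mem_iff]
      rcases h1 with h1 | h1
      · exact Or.inl (Fin.ext h1)
      · exact Or.inr (Fin.ext h1)
    · rw [Sym2.mem_iff]
      rcases h2 with h2 | h2
      · exact Or.inl (Fin.ext h2)
      · exact Or.inr (Fin.ext h2)
  · intro a b v hab hv
    rcases hab with hab | hab
    · rcases ta_vert hN b.2 hab hv with h | h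
      · exact Or.inl (Fin.ext h)
      · exact Or.inr (Fin.ext h)
    · rw [segment_symm] at hv
      rcases ta_vert hN a.2 hab hv with h | h
      · exact Or.inr (Fin.ext h)
      · exact Or.inl (Fin.ext h)

end Pool.Agent.W5h12.CUB
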