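import Pool.Agent.W5h12.CUB.Untangle

set_option autoImplicit false

/-!
# The tube is cubic and 3-connected
-/

namespace Pool.Agent.W5h12.CUB

open Set

theorem tube_cubic {N : ℕ} (hN : N % 2 = 0) (h6 : 6 ≤ N) (v : Fin N) :
    ((tube N).neighborSet v).ncard = 3 := by
  have key : ∀ a b c : ℕ, ∀ (ha : a < N) (hb : b < N) (hc : c < N), a ≠ b → a ≠ c → b ≠ c →
      (∀ w, w < N → ((TA N v w ∨ TA N w v) ↔ w = a ∨ w = b ∨ w = c)) →
      ((tube N).neighborSet v).ncard = 3 := by
    intro a b c ha hb hc hab hac hbc h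
    rw [Set.ncard_eq_three]
    refine ⟨⟨a, ha⟩, ⟨b, hb⟩, ⟨c, hc⟩, ?_, ?_, ?_, ?_⟩
    · simpa [Fin.ext_iff] using hab
    · simpa [Fin.ext_iff] using hac
    · simpa [Fin.ext_iff] using hbc
    · ext w
      have := h w w.2
      simp only [SimpleGraph.mem_neighborSet, Set.mem_insert_iff, Set.mem_singleton_iff,
        Fin.ext_iff]
      exact this
  obtain ⟨v, hv⟩ := v
  simp only at key
  unfold TA at key
  by_cases h0 : v = 0
  · subst h0
    exact key 1 2 4 (by omega) (by omega) (by omega) (by omega) (by omega) (by omega)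
      (fun w hw => by omega)
  by_cases h1 : v + 1 = N
  · refine key (v - 1) (v - 2) (v - 4) (by omega) (by omega) (by omega) (by omega) (by omega)
      (by omega) (fun w hw => ?_)
    omega
  by_cases h2 : v % 2 = 1
  · by_cases h3 : v + 5 < N
    · refine key (v - 1) (v + 1) (v + 5) (by omega) (by omega) (by omega) (by omega) (by omega)
        (by omega) (fun w hw => ?_)
      omega
    · refine key (v - 1) (v + 1) (N - 1) (by omega) (by omega) (by omega) (by omega) (by omega)
        (by omega) (fun w hw => ?_)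
      omega
  · by_cases h3 : 6 ≤ v
    · refine key (v - 1) (v + 1) (v - 5) (by omega) (by omega) (by omega) (by omega) (by omega)
        (by omega) (fun w hw => ?_)
      omega
    · refine key (v - 1) (v + 1) 0 (by omega) (by omega) (by omega) (by omega) (by omega)
        (by omega) (fun w hw => ?_)
      omega

section Connectivity

variable {N p q : ℕ} {R : ℕ → ℕ → Prop}

/-- going down a ray -/
theorem go_down (hN : N % 2 = 0) (hrefl : ∀ u, u < N → u ≠ p → u ≠ q → R u u)
    (htrans : ∀ u v w, R u v → R v w → R u w)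
    (hadj : ∀ u v, u < N → v < N → u ≠ p → u ≠ q → v ≠ p → v ≠ q → (TA N u v ∨ TA N v u) → R u v) :
    ∀ v, v < N → (∀ w, w ≤ v → (w = 0 ∨ (w / 2) % 3 = (v / 2) % 3) → w ≠ p ∧ w ≠ q) → R v 0 := by
  intro v
  induction v using Nat.strong_induction_on with
  | _ v ih =>
    intro hv hval
    have hv' := hval v le_rfl (Or.inr rfl)
    have h0' := hval 0 (Nat.zero_le v) (Or.inl rfl)
    by_cases h0 : v = 0
    · rw [h0]
      exact hrefl 0 (by omega) h0'.1 h0'.2
    have step : ∀ u, u < v → (u = 0 ∨ (u / 2) % 3 = (v / 2) % 3) → (TA N v u ∨ TA N u v) →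
        R v 0 := by
      intro u hu hur hta
      have hu' := hval u hu.le hur
      refine htrans v u 0 (hadj v u hv (by omega) hv'.1 hv'.2 hu'.1 hu'.2 hta) ?_
      refine ih u hu (by omega) ?_
      intro w hw hwr
      refine hval w (by omega) ?_
      rcases hwr with hwr | hwr
      · exact Or.inl hwr
      · rcases hur with hur | hur
        · left
          omega
        · right
          omega
    unfold TA at step
    by_cases h1 : v % 2 = 1
    · exact step (v - 1) (by omega) (by omega) (by omega)
    by_cases h6 : 6 ≤ v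
    · exact step (v - 5) (by omega) (by omega) (by omega)
    · exact step 0 (by omega) (by omega) (by omega)

/-- going up a ray -/
theorem go_up (hN : N % 2 = 0) (hrefl : ∀ u, u < N → u ≠ p → u ≠ q → R u u)
    (htrans : ∀ u v w, R u v → R v w → R u w)
    (hadj : ∀ u v, u < N → v < N → u ≠ p → u ≠ q → v ≠ p → v ≠ q → (TA N u v ∨ TA N v u) → R u v) :
    ∀ d v, v + d + 1 = N → (∀ w, v ≤ w → w < N → (w + 1 = N ∨ (w / 2) % 3 = (v / 2) % 3) →
      w ≠ p ∧ w ≠ q) → R v (N - 1) := by
  intro d
  induction d using Nat.strong_induction_on with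
  | _ d ih =>
    intro v hv hval
    have hv' := hval v le_rfl (by omega) (Or.inr rfl)
    have h0' := hval (N - 1) (by omega) (by omega) (by omega)
    by_cases h0 : d = 0
    · rw [show v = N - 1 by omega]
      exact hrefl (N - 1) (by omega) h0'.1 h0'.2
    have step : ∀ u, v < u → u < N → (u + 1 = N ∨ (u / 2) % 3 = (v / 2) % 3) →
        (TA N v u ∨ TA N u v) → R v (N - 1) := by
      intro u hu huN hur hta
      have hu' := hval u hu.le huN hur
      refine htrans v u _ (hadj v u (by omega) huN hv'.1 hv'.2 hu'.1 hu'.2 hta) ?_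
      refine ih (N - 1 - u) (by omega) u (by omega) ?_
      intro w hw hwN hwr
      refine hval w (by omega) hwN ?_
      rcases hwr with hwr | hwr
      · exact Or.inl hwr
      · rcases hur with hur | hur
        · left
          omega
        · right
          omega
    unfold TA at step
    by_cases h1 : v % 2 = 0
    · exact step (v + 1) (by omega) (by omega) (by omega) (by omega)
    by_cases h6 : v + 5 < N
    · exact step (v + 5) (by omega) (by omega) (by omega) (by omega)
    · exact step (N - 1) (by omega) (by omega) (by omega) (by omega)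

theorem go_mid (hN : N % 2 = 0)
    (hrefl : ∀ u, u < N → u ≠ p → u ≠ q → R u u)
    (htrans : ∀ u v w, R u v → R v w → R u w)
    (hadj : ∀ u v, u < N → v < N → u ≠ p → u ≠ q → v ≠ p → v ≠ q → (TA N u v ∨ TA N v u) → R u v)
    (hp : p = 0 ∨ p + 1 = N) (hq : q = 0 ∨ q + 1 = N) :
    ∀ d v, v + d + 1 < N → 1 ≤ v → R v (v + d) := by
  intro d
  induction d with
  | zero => intro v h1 h2; exact hrefl v (by omega) (by omega) (by omega)
  | succ d ih =>
    intro v h1 h2
    refine htrans v (v + d) _ (ih v (by omega) h2) ?_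
    exact hadj (v + d) (v + (d + 1)) (by omega) (by omega) (by omega) (by omega) (by omega)
      (by omega) (Or.inl (Or.inl rfl))

theorem all_rel (hN : N % 2 = 0) (h6 : 6 ≤ N)
    (hrefl : ∀ u, u < N → u ≠ p → u ≠ q → R u u)
    (hsymm : ∀ u v, R u v → R v u)
    (htrans : ∀ u v w, R u v → R v w → R u w)
    (hadj : ∀ u v, u < N → v < N → u ≠ p → u ≠ q → v ≠ p → v ≠ q → (TA N u v ∨ TA N v u) → R u v) :
    ∀ u v, u < N → v < N → u ≠ p → u ≠ q → v ≠ p → v ≠ q → R u v := by
  -- a vertex whose ray is cut can move to another ray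
  have hcross : ∀ v, v < N → v ≠ 0 → v + 1 ≠ N → ∃ u, u < N ∧ u ≠ 0 ∧ u + 1 ≠ N ∧
      (u / 2) % 3 ≠ (v / 2) % 3 ∧ (TA N v u ∨ TA N u v) := by
    intro v hv h0 h1
    unfold TA
    by_cases hodd : v % 2 = 1
    · exact ⟨v + 1, by omega, by omega, by omega, by omega, by omega⟩
    · exact ⟨v - 1, by omega, by omega, by omega, by omega, by omega⟩
  have down := go_down (p := p) (q := q) (R := R) hN hrefl htrans hadj
  have up : ∀ v, v < N → (∀ w, v ≤ w → w < N → (w + 1 = N ∨ (w / 2) % 3 = (v / 2) % 3) →
      w ≠ p ∧ w ≠ q) → R v (N - 1) := by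
    intro v hv h
    exact go_up (p := p) (q := q) (R := R) hN hrefl htrans hadj (N - 1 - v) v (by omega) h
  by_cases hz : p ≠ 0 ∧ q ≠ 0
  · by_cases he : p + 1 ≠ N ∧ q + 1 ≠ N
    · -- both ends are present
      have hfree : ∃ r, r < 3 ∧ (p / 2) % 3 ≠ r ∧ (q / 2) % 3 ≠ r := by
        by_cases h1 : (p / 2) % 3 ≠ 0 ∧ (q / 2) % 3 ≠ 0
        · exact ⟨0, by omega, h1⟩
        by_cases h2 : (p / 2) % 3 ≠ 1 ∧ (q / 2) % 3 ≠ 1
        · exact ⟨1, by omega, h2⟩
        · exact ⟨2, by omega, by omega, by omega⟩
      obtain ⟨r, hr, hpr, hqr⟩ := hfree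
      have hends : R 0 (N - 1) := by
        refine htrans 0 (2 * r + 1) _ (hsymm _ _ (down (2 * r + 1) (by omega) ?_))
          (up (2 * r + 1) (by omega) ?_)
        · intro w hw hwr
          rcases hwr with hwr | hwr
          · omega
          · constructor <;> rintro rfl <;> omega
        · intro w hw hwN hwr
          rcases hwr with hwr | hwr
          · omega
          · constructor <;> rintro rfl <;> omega
      have hall : ∀ v, v < N → v ≠ p → v ≠ q → R v 0 := by
        intro v hv hvp hvq
        by_cases hd : ∀ w, w ≤ v → (w = 0 ∨ (w / 2) % 3 = (v / 2) % 3) → w ≠ p ∧ w ≠ q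
        · exact down v hv hd
        by_cases hu : ∀ w, v ≤ w → w < N → (w + 1 = N ∨ (w / 2) % 3 = (v / 2) % 3) → w ≠ p ∧ w ≠ q
        · exact htrans _ _ _ (up v hv hu) (hsymm _ _ hends)
        push Not at hd hu
        obtain ⟨w, hw, hwr, hwpq⟩ := hd
        obtain ⟨w', hw', hwN', hwr', hwpq'⟩ := hu
        have hv0 : v ≠ 0 := by
          rintro rfl
          have : w = 0 := by omega
          subst this
          exact hvq (hwpq (by omega))
        have hv1 : v + 1 ≠ N := by
          intro h
          have : w' = v := by omega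
          subst this
          exact hvq (hwpq' hvp)
        have hpq : (w = p ∨ w = q) ∧ (w' = p ∨ w' = q) := by
          constructor
          · by_cases h : w = p
            · exact Or.inl h
            · exact Or.inr (hwpq h)
          · by_cases h : w' = p
            · exact Or.inl h
            · exact Or.inr (hwpq' h)
        have hww : w ≠ w' := by
          intro h
          have : w = v := by omega
          rcases hpq.1 with h' | h' <;> omega
        have hrays : (p / 2) % 3 = (v / 2) % 3 ∧ (q / 2) % 3 = (v / 2) % 3 := by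
          have a1 : (w / 2) % 3 = (v / 2) % 3 := by
            rcases hwr with h | h
            · rcases hpq.1 with h' | h' <;> omega
            · exact h
          have a2 : (w' / 2) % 3 = (v / 2) % 3 := by
            rcases hwr' with h | h
            · rcases hpq.2 with h' | h' <;> omega
            · exact h
          rcases hpq.1 with h1 | h1 <;> rcases hpq.2 with h2 | h2
          · exact absurd (h1.trans h2.symm) hww
          · rw [← h1, ← h2]; exact ⟨a1, a2⟩
          · rw [← h1, ← h2]; exact ⟨a2, a1⟩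
          · exact absurd (h1.trans h2.symm) hww
        obtain ⟨u, huN, -, -, hur, hta⟩ := hcross v hv hv0 hv1
        have hup : u ≠ p := by rintro rfl; omega
        have huq : u ≠ q := by rintro rfl; omega
        refine htrans v u 0 (hadj v u hv huN hvp hvq hup huq hta) (down u huN ?_)
        intro w'' _ hwr''
        rcases hwr'' with h | h
        · omega
        · constructor <;> rintro rfl <;> omega
      intro u v hu hv hup huq hvp hvq
      exact htrans _ _ _ (hall u hu hup huq) (hsymm _ _ (hall v hv hvp hvq))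
    · -- the last vertex is missing, the first is present
      have hall : ∀ v, v < N → v ≠ p → v ≠ q → R v 0 := by
        intro v hv hvp hvq
        by_cases hd : ∀ w, w ≤ v → (w = 0 ∨ (w / 2) % 3 = (v / 2) % 3) → w ≠ p ∧ w ≠ q
        · exact down v hv hd
        push Not at hd
        obtain ⟨w, hw, hwr, hwpq⟩ := hd
        have hpq : w = p ∨ w = q := by
          by_cases h : w = p
          · exact Or.inl h
          · exact Or.inr (hwpq h)
        have hwr1 : (w / 2) % 3 = (v / 2) % 3 := by
          rcases hwr with h | h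
          · rcases hpq with h' | h' <;> omega
          · exact h
        have hwv : w < v := by
          rcases hpq with h' | h' <;> omega
        have hvlast : v + 1 ≠ N := by
          rcases hpq with h' | h' <;> omega
        obtain ⟨u, huN, hu0, hu1, hur, hta⟩ := hcross v hv (by omega) hvlast
        have hwp : ∀ y, y + 1 ≠ N → (y / 2) % 3 ≠ (v / 2) % 3 → y ≠ p ∧ y ≠ q := by
          intro y hy hyr
          rcases hpq with h' | h'
          · constructor
            · rintro rfl; omega
            · rintro rfl; omega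
          · constructor
            · rintro rfl; omega
            · rintro rfl; omega
        obtain ⟨hup, huq⟩ := hwp u hu1 hur
        refine htrans v u 0 (hadj v u hv huN hvp hvq hup huq hta) (down u huN ?_)
        intro y hy hyr
        rcases hyr with h | h
        · omega
        · exact hwp y (by omega) (by omega)
      intro u v hu hv hup huq hvp hvq
      exact htrans _ _ _ (hall u hu hup huq) (hsymm _ _ (hall v hv hvp hvq))
  · by_cases he : p + 1 ≠ N ∧ q + 1 ≠ N
    · -- the first vertex is missing, the last is present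
      have hall : ∀ v, v < N → v ≠ p → v ≠ q → R v (N - 1) := by
        intro v hv hvp hvq
        by_cases hd : ∀ w, v ≤ w → w < N → (w + 1 = N ∨ (w / 2) % 3 = (v / 2) % 3) → w ≠ p ∧ w ≠ q
        · exact up v hv hd
        push Not at hd
        obtain ⟨w, hw, hwN, hwr, hwpq⟩ := hd
        have hpq : w = p ∨ w = q := by
          by_cases h : w = p
          · exact Or.inl h
          · exact Or.inr (hwpq h)
        have hwr1 : (w / 2) % 3 = (v / 2) % 3 := by
          rcases hwr with h | h
          · rcases hpq with h' | h' <;> omega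
          · exact h
        have hv0 : v ≠ 0 := by
          rcases hpq with h' | h' <;> omega
        have hvlast : v + 1 ≠ N := by
          rcases hpq with h' | h' <;> omega
        obtain ⟨u, huN, hu0, hu1, hur, hta⟩ := hcross v hv hv0 hvlast
        have hwp : ∀ y, y ≠ 0 → (y / 2) % 3 ≠ (v / 2) % 3 → y ≠ p ∧ y ≠ q := by
          intro y hy hyr
          rcases hpq with h' | h'
          · constructor
            · rintro rfl; omega
            · rintro rfl; omega
          · constructor
            · rintro rfl; omega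
            · rintro rfl; omega
        obtain ⟨hup, huq⟩ := hwp u hu0 hur
        refine htrans v u _ (hadj v u hv huN hvp hvq hup huq hta) (up u huN ?_)
        intro y hy hyN hyr
        rcases hyr with h | h
        · omega
        · exact hwp y (by omega) (by omega)
      intro u v hu hv hup huq hvp hvq
      exact htrans _ _ _ (hall u hu hup huq) (hsymm _ _ (hall v hv hvp hvq))
    · -- both ends are missing
      have hmid : ∀ u v, u ≤ v → 1 ≤ u → v + 1 < N → R u v := by
        intro u v huv hu hv
        have := go_mid (p := p) (q := q) (R := R) hN hrefl htrans hadj (by omega) (by omega)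
          (v - u) u (by omega) hu
        rwa [show u + (v - u) = v by omega] at this
      intro u v hu hv hup huq hvp hvq
      rcases Nat.le_total u v with h | h
      · exact hmid u v h (by omega) (by omega)
      · exact hsymm _ _ (hmid v u h (by omega) (by omega))

end Connectivity

theorem tube_conn {N : ℕ} (hN : N % 2 = 0) (h6 : 6 ≤ N) (X : Finset (Fin N)) (hX : X.card ≤ 2) :
    ((tube N).induce ((X : Set (Fin N))ᶜ)).Connected := by
  classical
  obtain ⟨p, q, hpq⟩ : ∃ p q : ℕ, ∀ v : Fin N, v ∈ X ↔ (v : ℕ) = p ∨ (v : ℕ) = q := by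
    rcases (show X.card = 0 ∨ X.card = 1 ∨ X.card = 2 by omega) with h | h | h
    · rw [Finset.card_eq_zero] at h
      subst h
      refine ⟨N, N, fun v => ?_⟩
      have := v.2
      simp
      omega
    · rw [Finset.card_eq_one] at h
      obtain ⟨a, rfl⟩ := h
      refine ⟨a, a, fun v => ?_⟩
      simp [Fin.ext_iff]
    · rw [Finset.card_eq_two] at h
      obtain ⟨a, b, -, rfl⟩ := h
      refine ⟨a, b, fun v => ?_⟩
      simp [Fin.ext_iff]
  let H := (tube N).induce ((X : Set (Fin N))ᶜ)
  have hmem : ∀ v : Fin N, v ∈ ((X : Set (Fin N))ᶜ) ↔ (v : ℕ) ≠ p ∧ (v : ℕ) ≠ q := by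
    intro v
    rw [Set.mem_compl_iff, Finset.mem_coe, hpq]
    tauto
  let R : ℕ → ℕ → Prop := fun u v => ∃ (hu : u < N) (hv : v < N)
    (hu' : (⟨u, hu⟩ : Fin N) ∈ ((X : Set (Fin N))ᶜ)) (hv' : (⟨v, hv⟩ : Fin N) ∈ ((X : Set (Fin N))ᶜ)),
    H.Reachable ⟨⟨u, hu⟩, hu'⟩ ⟨⟨v, hv⟩, hv'⟩
  have hR := all_rel (p := p) (q := q) (R := R) hN h6
    (fun u hu hup huq => ⟨hu, hu, (hmem _).2 ⟨hup, huq⟩, (hmem _).2 ⟨hup, huq⟩,
      SimpleGraph.Reachable.refl _⟩)
    (fun u v h => by
      obtain ⟨a, b, c, d, e⟩ := h
      exact ⟨b, a, d, c, e.symm⟩)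
    (fun u v w h h' => by
      obtain ⟨a, b, c, d, e⟩ := h
      obtain ⟨a', b', c', d', e'⟩ := h'
      exact ⟨a, b', c, d', e.trans e'⟩)
    (fun u v hu hv hup huq hvp hvq hta => by
      refine ⟨hu, hv, (hmem _).2 ⟨hup, huq⟩, (hmem _).2 ⟨hvp, hvq⟩, ?_⟩
      refine SimpleGraph.Adj.reachable ?_
      rw [SimpleGraph.comap_adj]
      exact hta)
  have hne : ∃ v : ℕ, v < N ∧ v ≠ p ∧ v ≠ q := by
    by_cases h0 : (0 : ℕ) ≠ p ∧ (0 : ℕ) ≠ q
    · exact ⟨0, by omega, h0⟩
    by_cases h1 : (1 : ℕ) ≠ p ∧ (1 : ℕ) ≠ q
    · exact ⟨1, by omega, h1⟩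
    · exact ⟨2, by omega, by omega, by omega⟩
  obtain ⟨v₀, hv₀, hv₀'⟩ := hne
  have : Nonempty ((X : Set (Fin N))ᶜ : Set (Fin N)) := ⟨⟨⟨v₀, hv₀⟩, (hmem _).2 hv₀'⟩⟩
  refine SimpleGraph.Connected.mk ?_
  rintro ⟨u, hu⟩ ⟨v, hv⟩
  obtain ⟨_, _, _, _, e⟩ := hR u v u.2 v.2 ((hmem u).1 hu).1 ((hmem u).1 hu).2 ((hmem v).1 hv).1
    ((hmem v).1 hv).2
  exact e

end Pool.Agent.W5h12.CUB
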