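import Mathlib

set_option autoImplicit false

/-!
# Counting slow sequences and the permutations sorting them
-/

namespace Pool.Agent.W5h12.CUB

open Finset

/-- the distance of two natural numbers -/
def dst (a b : ℕ) : ℕ := (a - b) + (b - a)

theorem sum_pow_dst (N b : ℕ) (z : ℝ) (hz0 : 0 ≤ z) (hz1 : z < 1) (hb : b < N) :
    ∑ a ∈ range N, z ^ dst a b ≤ 2 / (1 - z) := by
  have hgeo : ∀ n, ∑ j ∈ range n, z ^ j ≤ 1 / (1 - z) := by
    intro n
    rw [le_div_iff₀ (by linarith), geom_sum_mul_neg]
    have := pow_nonneg hz0 n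
    linarith
  rw [← Finset.sum_range_add_sum_Ico _ hb.le]
  have h1 : ∑ a ∈ range b, z ^ dst a b ≤ 1 / (1 - z) := by
    calc ∑ a ∈ range b, z ^ dst a b = ∑ a ∈ range b, (fun j => z ^ (j + 1)) (b - 1 - a) := by
          refine Finset.sum_congr rfl ?_
          intro a ha
          rw [Finset.mem_range] at ha
          simp only [dst]
          congr 1
          omega
      _ = ∑ j ∈ range b, z ^ (j + 1) := Finset.sum_range_reflect (fun j => z ^ (j + 1)) b
      _ ≤ ∑ j ∈ range b, z ^ j := by
          refine Finset.sum_le_sum ?_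
          intro j _
          rw [pow_succ]
          nlinarith [pow_nonneg hz0 j]
      _ ≤ _ := hgeo b
  have h2 : ∑ a ∈ Ico b N, z ^ dst a b ≤ 1 / (1 - z) := by
    rw [Finset.sum_Ico_eq_sum_range]
    calc ∑ k ∈ range (N - b), z ^ dst (b + k) b = ∑ k ∈ range (N - b), z ^ k := by
          refine Finset.sum_congr rfl ?_
          intro a _
          simp only [dst]
          congr 1
          omega
      _ ≤ _ := hgeo _
  have h3 : 2 / (1 - z) = 1 / (1 - z) + 1 / (1 - z) := by ring
  rw [h3]
  exact add_le_add h1 h2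

/-- total variation -/
def tv {N m : ℕ} (s : Fin (m + 1) → Fin N) : ℕ :=
  ∑ t : Fin m, dst (s t.castSucc) (s t.succ)

theorem tv_cons {N m : ℕ} (a : Fin N) (s : Fin (m + 1) → Fin N) :
    tv (Fin.cons a s : Fin (m + 1 + 1) → Fin N) = dst a (s 0) + tv s := by
  unfold tv
  rw [Fin.sum_univ_succ]
  congr 1

theorem sum_weights (N : ℕ) (z : ℝ) (hz0 : 0 ≤ z) (hz1 : z < 1) (m : ℕ) :
    ∑ s : Fin (m + 1) → Fin N, z ^ tv s ≤ N * (2 / (1 - z)) ^ m := by
  induction m with
  | zero =>
    simp [tv]
  | succ m ih =>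
    have h1 : ∑ s : Fin (m + 1 + 1) → Fin N, z ^ tv s =
        ∑ p : Fin N × (Fin (m + 1) → Fin N), z ^ tv (Fin.cons p.1 p.2 : Fin (m + 1 + 1) → Fin N) := by
      refine (Fintype.sum_equiv (Fin.consEquiv (fun _ : Fin (m + 2) => Fin N)) _ _ ?_).symm
      intro p
      rfl
    rw [h1, Fintype.sum_prod_type_right]
    calc ∑ s : Fin (m + 1) → Fin N, ∑ a : Fin N, z ^ tv (Fin.cons a s : Fin (m + 1 + 1) → Fin N)
        ≤ ∑ s : Fin (m + 1) → Fin N, z ^ tv s * (2 / (1 - z)) := by
          refine Finset.sum_le_sum ?_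
          intro s _
          calc ∑ a : Fin N, z ^ tv (Fin.cons a s : Fin (m + 1 + 1) → Fin N)
              = ∑ a : Fin N, z ^ tv s * z ^ dst a (s 0) := by
                refine Finset.sum_congr rfl ?_
                intro a _
                rw [tv_cons, pow_add, mul_comm]
            _ = z ^ tv s * ∑ a : Fin N, z ^ dst a (s 0) := by rw [Finset.mul_sum]
            _ = z ^ tv s * ∑ a ∈ range N, z ^ dst a (s 0) := by
                rw [Finset.sum_range]
            _ ≤ z ^ tv s * (2 / (1 - z)) :=
                mul_le_mul_of_nonneg_left (sum_pow_dst N _ z hz0 hz1 (s 0).2) (pow_nonneg hz0 _)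
      _ = (∑ s : Fin (m + 1) → Fin N, z ^ tv s) * (2 / (1 - z)) := by rw [Finset.sum_mul]
      _ ≤ (N * (2 / (1 - z)) ^ m) * (2 / (1 - z)) :=
          mul_le_mul_of_nonneg_right ih (div_nonneg (by norm_num) (by linarith))
      _ = N * (2 / (1 - z)) ^ (m + 1) := by ring

theorem count_slow (N : ℕ) (z : ℝ) (hz0 : 0 < z) (hz1 : z < 1) (m L : ℕ) :
    ((univ.filter (fun s : Fin (m + 1) → Fin N => tv s ≤ L)).card : ℝ) * z ^ L ≤
      N * (2 / (1 - z)) ^ m := by
  refine le_trans ?_ (sum_weights N z hz0.le hz1 m)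
  calc ((univ.filter (fun s : Fin (m + 1) → Fin N => tv s ≤ L)).card : ℝ) * z ^ L
      = ∑ s ∈ univ.filter (fun s : Fin (m + 1) → Fin N => tv s ≤ L), z ^ L := by
        rw [Finset.sum_const, nsmul_eq_mul]
    _ ≤ ∑ s ∈ univ.filter (fun s : Fin (m + 1) → Fin N => tv s ≤ L), z ^ tv s := by
        refine Finset.sum_le_sum ?_
        intro s hs
        rw [Finset.mem_filter] at hs
        exact pow_le_pow_of_le_one hz0.le hz1.le hs.2
    _ ≤ _ := Finset.sum_le_sum_of_subset_of_nonneg (Finset.filter_subset _ _)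
        (fun s _ _ => pow_nonneg hz0.le _)

/-- at most `N! / k!` permutations sort a given sequence of length `k` -/
theorem card_sorting (N k : ℕ) (s : Fin k → Fin N) :
    (univ.filter (fun π : Equiv.Perm (Fin N) => StrictMono (fun t => π (s t)))).card * k.factorial ≤
      N.factorial := by
  classical
  rcases (univ.filter (fun π : Equiv.Perm (Fin N) => StrictMono (fun t => π (s t)))).eq_empty_or_nonempty
    with he | ⟨π₀, hπ₀⟩
  · rw [he]
    simp
  rw [Finset.mem_filter] at hπ₀
  have hinj : Function.Injective s := by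
    intro a b hab
    exact hπ₀.2.injective (by simp [hab])
  let e : Fin k ↪ Fin N := ⟨s, hinj⟩
  have hcard : (univ : Finset (Equiv.Perm (Fin k))).card = k.factorial := by
    rw [Finset.card_univ, Fintype.card_perm, Fintype.card_fin]
  rw [← hcard, ← Finset.card_product]
  have hN : N.factorial = (univ : Finset (Equiv.Perm (Fin N))).card := by
    rw [Finset.card_univ, Fintype.card_perm, Fintype.card_fin]
  rw [hN]
  refine Finset.card_le_card_of_injOn
    (fun p => (Equiv.Perm.viaFintypeEmbedding p.2 e).trans p.1) (fun _ _ => by simp) ?_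
  rintro ⟨π, σ⟩ hp ⟨π', σ'⟩ hp' he
  simp only [Finset.coe_product, Set.mem_prod, Finset.coe_filter, Set.mem_ofPred_eq,
    Finset.mem_univ, true_and] at hp hp'
  simp only at he
  have h1 : ∀ t, π (s (σ t)) = π' (s (σ' t)) := by
    intro t
    have := congrArg (fun f : Equiv.Perm (Fin N) => f (e t)) he
    simp only [Equiv.trans_apply, Equiv.Perm.viaFintypeEmbedding_apply_image] at this
    exact this
  have h2 : (fun t => π (s t)) = (fun t => π' (s t)) := by
    refine (StrictMono.range_inj hp.1 hp'.1).1 ?_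
    ext y
    constructor
    · rintro ⟨t, rfl⟩
      refine ⟨σ' (σ.symm t), ?_⟩
      have := h1 (σ.symm t)
      simpa using this.symm
    · rintro ⟨t, rfl⟩
      refine ⟨σ (σ'.symm t), ?_⟩
      have := h1 (σ'.symm t)
      simpa using this
  have h3 : σ = σ' := by
    ext t
    have h4 := h1 t
    have h5 : π (s (σ t)) = π' (s (σ t)) := congrFun h2 (σ t)
    rw [h5] at h4
    have := hp'.1.injective h4
    rw [this]
  subst h3
  have h4 : π = π' := by
    ext y
    have := congrArg (fun f : Equiv.Perm (Fin N) =>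
      f ((Equiv.Perm.viaFintypeEmbedding σ e).symm y)) he
    simpa using congrArg Fin.val this
  rw [h4]

/-- if there are fewer slow sequences of length `k` than `k!`, some permutation sorts none -/
theorem exists_perm (N k : ℕ) (P : Finset (Fin k → Fin N)) (hP : P.card < k.factorial) :
    ∃ π : Equiv.Perm (Fin N), ∀ s ∈ P, ¬ StrictMono (fun t => π (s t)) := by
  classical
  by_contra hcon
  push Not at hcon
  have h1 : (univ : Finset (Equiv.Perm (Fin N))) ⊆
      P.biUnion (fun s => univ.filter (fun π => StrictMono (fun t => π (s t)))) := by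
    intro π _
    obtain ⟨s, hs, hmono⟩ := hcon π
    simp only [Finset.mem_biUnion, Finset.mem_filter, Finset.mem_univ, true_and]
    exact ⟨s, hs, hmono⟩
  have h2 := (Finset.card_le_card h1).trans Finset.card_biUnion_le
  rw [Finset.card_univ, Fintype.card_perm, Fintype.card_fin] at h2
  have h3 : N.factorial * k.factorial ≤ P.card * N.factorial := by
    calc N.factorial * k.factorial
        ≤ (∑ s ∈ P, (univ.filter (fun π : Equiv.Perm (Fin N) =>
            StrictMono (fun t => π (s t)))).card) * k.factorial := Nat.mul_le_mul_right _ h2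
      _ = ∑ s ∈ P, (univ.filter (fun π : Equiv.Perm (Fin N) =>
            StrictMono (fun t => π (s t)))).card * k.factorial := by rw [Finset.sum_mul]
      _ ≤ ∑ _s ∈ P, N.factorial := Finset.sum_le_sum (fun s _ => card_sorting N k s)
      _ = P.card * N.factorial := by rw [Finset.sum_const, smul_eq_mul]
  have h4 : k.factorial ≤ P.card := by
    have hpos : 0 < N.factorial := Nat.factorial_pos N
    rw [mul_comm] at h3
    exact Nat.le_of_mul_le_mul_right h3 hpos
  omega

end Pool.Agent.W5h12.CUB
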