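import Mathlib

set_option autoImplicit false

/-!
# Straight-line drawings, fixed vertices and the class of cubic 3-connected planar graphs
-/

namespace Pool.Agent.W5h12.CUB

/-- `δ` is a plane straight-line drawing of `G`: it is injective, two distinct edges (drawn as
closed segments) meet only at the image of a common endpoint, and an edge contains the image of a
vertex only if that vertex is one of its endpoints. -/
structure IsPlane {V : Type*} (G : SimpleGraph V) (δ : V → ℝ × ℝ) : Prop where
  inj : Function.Injective δ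
  meet : ∀ a b c d, G.Adj a b → G.Adj c d → s(a, b) ≠ s(c, d) →
    ∀ p, p ∈ segment ℝ (δ a) (δ b) → p ∈ segment ℝ (δ c) (δ d) →
      ∃ v, v ∈ s(a, b) ∧ v ∈ s(c, d) ∧ p = δ v
  vert : ∀ a b v, G.Adj a b → δ v ∈ segment ℝ (δ a) (δ b) → v = a ∨ v = b

/-- `fix(G, δ)`: the largest number of vertices on which some plane straight-line drawing of `G`
agrees with `δ` -/
noncomputable def fixDraw {V : Type*} (G : SimpleGraph V) (δ : V → ℝ × ℝ) : ℕ :=
  sSup {k | ∃ (δ' : V → ℝ × ℝ) (S : Finset V), IsPlane G δ' ∧ S.card = k ∧ ∀ v ∈ S, δ' v = δ v}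

/-- `fix(G)`: the minimum of `fix(G, δ)` over all straight-line drawings `δ` of `G` -/
noncomputable def fixG {V : Type*} (G : SimpleGraph V) : ℕ :=
  sInf {k | ∃ δ : V → ℝ × ℝ, Function.Injective δ ∧ fixDraw G δ = k}

/-- the class `𝒞`: cubic, 3-connected, planar (planar meaning: having a plane straight-line
drawing) -/
structure InC {V : Type*} (G : SimpleGraph V) : Prop where
  cubic : ∀ v, (G.neighborSet v).ncard = 3
  large : 4 ≤ Nat.card V
  conn : ∀ X : Finset V, X.card ≤ 2 → (G.induce ((X : Set V)ᶜ)).Connected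
  planar : ∃ δ : V → ℝ × ℝ, IsPlane G δ

/-- `fix_𝒞(n)`: the minimum of `fix(G)` over the `n`-vertex members of `𝒞` -/
noncomputable def fixC (n : ℕ) : ℕ :=
  sInf {k | ∃ G : SimpleGraph (Fin n), InC G ∧ fixG G = k}

end Pool.Agent.W5h12.CUB
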