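import Pool.Agent.W5h12.CUB.Ring
import Pool.Agent.W5h12.CUB.Count

set_option autoImplicit false

/-!
# Fixed vertices on a line move slowly through the tube

If, in a plane drawing of the tube, the vertices `s 0, s 1, ..., s m` lie in this order on the
horizontal axis, then the total variation of the sequence `s` is at most `36 N + 7 m`.
-/

namespace Pool.Agent.W5h12.CUB

open Set

theorem mem_axis_segment {a b : ℝ} (hab : a ≤ b) {z : ℝ × ℝ}
    (hz : z ∈ segment ℝ ((a, 0) : ℝ × ℝ) (b, 0)) : z.2 = 0 ∧ a ≤ z.1 ∧ z.1 ≤ b := by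
  obtain ⟨u, v, hu, hv, huv, rfl⟩ := hz
  obtain rfl : u = 1 - v := by linarith
  have h1 := mul_nonneg hv (sub_nonneg.2 hab)
  have h2 := mul_nonneg hu (sub_nonneg.2 hab)
  refine ⟨by simp, ?_, ?_⟩
  · simp only [Prod.smul_mk, smul_eq_mul, Prod.mk_add_mk]
    linarith
  · simp only [Prod.smul_mk, smul_eq_mul, Prod.mk_add_mk]
    linarith

theorem axis_mem_segment {z z' : ℝ × ℝ} (h1 : z.2 = 0) (h2 : z'.2 = 0) {c : ℝ} (h3 : z.1 ≤ c)
    (h4 : c ≤ z'.1) : ((c, 0) : ℝ × ℝ) ∈ segment ℝ z z' := by
  rcases eq_or_lt_of_le (h3.trans h4) with he | hlt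
  · have : c = z.1 := le_antisymm (by linarith) h3
    have hz : ((c, 0) : ℝ × ℝ) = z := Prod.ext this h1.symm
    rw [hz]
    exact left_mem_segment ℝ z z'
  · refine ⟨(z'.1 - c) / (z'.1 - z.1), (c - z.1) / (z'.1 - z.1), div_nonneg (by linarith)
      (by linarith), div_nonneg (by linarith) (by linarith), ?_, ?_⟩
    · rw [← add_div]
      rw [show z'.1 - c + (c - z.1) = z'.1 - z.1 by ring]
      exact div_self (by linarith)
    · refine Prod.ext ?_ ?_
      · simp only [Prod.fst_add, Prod.smul_fst, smul_eq_mul]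
        have : z'.1 - z.1 ≠ 0 := by linarith
        field_simp
        ring
      · simp [h1, h2]

/-- the ring starting at `o` lies between `a` and `b` -/
def Btw (a b o : ℕ) : Prop := o % 2 = 1 ∧ ((a < o ∧ o + 5 < b) ∨ (b < o ∧ o + 5 < a))

instance (a b o : ℕ) : Decidable (Btw a b o) := by unfold Btw; infer_instance

theorem dst_le (N a b : ℕ) (ha : a < N) (hb : b < N) :
    dst a b ≤ 2 * ((Finset.range N).filter (fun o => Btw a b o)).card + 7 := by
  have key : ∀ c d : ℕ, c < N → d < N → c ≤ d →
      (d - c - 6) / 2 ≤ ((Finset.range N).filter (fun o => o % 2 = 1 ∧ c < o ∧ o + 5 < d)).card := by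
    intro c d hc hd hcd
    calc (d - c - 6) / 2 = (Finset.range ((d - c - 6) / 2)).card := by simp
      _ ≤ _ := by
        refine Finset.card_le_card_of_injOn (fun j => 2 * ((c + 1) / 2 + j) + 1) ?_ ?_
        · intro j hj
          simp only [Finset.coe_range, mem_Iio] at hj
          simp only [Finset.coe_filter, Finset.mem_range, mem_ofPred_eq]
          refine ⟨by omega, by omega, by omega, by omega⟩
        · intro j _ j' _ h
          simp only at h
          omega
  rcases Nat.le_total a b with h | h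
  · have h1 := key a b ha hb h
    have h2 : ((Finset.range N).filter (fun o => o % 2 = 1 ∧ a < o ∧ o + 5 < b)).card ≤
        ((Finset.range N).filter (fun o => Btw a b o)).card := by
      refine Finset.card_le_card ?_
      intro o ho
      simp only [Finset.mem_filter] at ho ⊢
      exact ⟨ho.1, ho.2.1, Or.inl ho.2.2⟩
    unfold dst
    omega
  · have h1 := key b a hb ha h
    have h2 : ((Finset.range N).filter (fun o => o % 2 = 1 ∧ b < o ∧ o + 5 < a)).card ≤
        ((Finset.range N).filter (fun o => Btw a b o)).card := by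
      refine Finset.card_le_card ?_
      intro o ho
      simp only [Finset.mem_filter] at ho ⊢
      exact ⟨ho.1, ho.2.1, Or.inr ho.2.2⟩
    unfold dst
    omega

theorem line_bound {N : ℕ} (hN : N % 2 = 0) {D : ℕ → ℝ × ℝ} (h : Pl N D) (m : ℕ) (s : ℕ → ℕ)
    (x : ℕ → ℝ) (hs : ∀ t ≤ m, s t < N) (hx : ∀ t < m, x t < x (t + 1))
    (hD : ∀ t ≤ m, D (s t) = (x t, 0)) :
    ∑ t ∈ Finset.range m, dst (s t) (s (t + 1)) ≤ 36 * N + 7 * m := by
  classical
  -- every ring between two consecutive fixed vertices is crossed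
  have hcross : ∀ t o, t < m → Btw (s t) (s (t + 1)) o → ∃ ij : ℕ × ℕ, ij.1 ≤ 5 ∧ ij.2 ≤ 5 ∧
      Cell N (o + ij.1) (o + ij.2) ∧ o + 5 < N ∧
      (segment ℝ (D (o + ij.1)) (D (o + ij.2)) ∩
        segment ℝ (D (s t)) (D (s (t + 1)))).Nonempty := by
    intro t o ht hB
    obtain ⟨ho, hB | hB⟩ := hB
    · obtain ⟨i, j, h1, h2, h3, h4, h5, h6⟩ := ring_cross hN h o ho (s t) (s (t + 1)) hB.1 hB.2
        (hs _ (by omega))
      have := hs (t + 1) (by omega)
      refine ⟨(i - o, j - o), by simp; omega, by simp; omega, ?_⟩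
      simp only
      rw [show o + (i - o) = i by omega, show o + (j - o) = j by omega]
      exact ⟨h5, by omega, h6⟩
    · obtain ⟨i, j, h1, h2, h3, h4, h5, h6⟩ := ring_cross hN h o ho (s (t + 1)) (s t) hB.1 hB.2
        (hs _ (by omega))
      have := hs t (by omega)
      refine ⟨(i - o, j - o), by simp; omega, by simp; omega, ?_⟩
      simp only
      rw [show o + (i - o) = i by omega, show o + (j - o) = j by omega,
        segment_symm ℝ (D (s t)) (D (s (t + 1)))]
      exact ⟨h5, by omega, h6⟩
  choose! f hf1 hf2 hf3 hf4 hf5 using hcross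
  have hmono : ∀ t t', t ≤ t' → t' ≤ m → x t ≤ x t' := by
    intro t t' h1
    induction t', h1 using Nat.le_induction with
    | base => intro _; exact le_rfl
    | succ n _ ih => intro h2; exact (ih (by omega)).trans (hx n (by omega)).le
  -- a cell meets at most one of the segments
  have hone : ∀ t t' o, t < t' → t' < m → Btw (s t) (s (t + 1)) o → Btw (s t') (s (t' + 1)) o →
      f t o ≠ f t' o := by
    intro t t' o htt ht' hB hB' he
    obtain ⟨z, hz1, hz2⟩ := hf5 t o (by omega) hB
    obtain ⟨z', hz1', hz2'⟩ := hf5 t' o ht' hB'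
    rw [← he] at hz1'
    rw [hD t (by omega), hD (t + 1) (by omega)] at hz2
    rw [hD t' (by omega), hD (t' + 1) (by omega)] at hz2'
    have a1 := mem_axis_segment (hmono t (t + 1) (by omega) (by omega)) hz2
    have a2 := mem_axis_segment (hmono t' (t' + 1) (by omega) (by omega)) hz2'
    have a3 := hmono (t + 1) t' (by omega) (by omega)
    have a4 : ((x (t + 1), 0) : ℝ × ℝ) ∈ segment ℝ z z' :=
      axis_mem_segment a1.1 a2.1 a1.2.2 (a3.trans a2.2.1)
    have a5 : ((x (t + 1), 0) : ℝ × ℝ) ∈ segment ℝ (D (o + (f t o).1)) (D (o + (f t o).2)) :=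
      (convex_segment _ _).segment_subset hz1 hz1' a4
    rw [← hD (t + 1) (by omega)] at a5
    have b1 := hf1 t o (by omega) hB
    have b2 := hf2 t o (by omega) hB
    have b4 := hf4 t o (by omega) hB
    have hne : ∀ e, e ≤ 5 → s (t + 1) ≠ o + e := by
      intro e he'
      rcases hB.2 with hh | hh <;> omega
    exact h.vtx' (by omega) (by omega) (hs (t + 1) (by omega)) (hf3 t o (by omega) hB)
      (hne _ b1) (hne _ b2) a5
  -- count
  let Y : Finset (ℕ × ℕ) := ((Finset.range m) ×ˢ (Finset.range N)).filter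
    (fun p => Btw (s p.1) (s (p.1 + 1)) p.2)
  have hY : Y.card ≤ 18 * N := by
    have h1 : Y.card ≤ ((Finset.range (N / 2)) ×ˢ (Finset.range 6 ×ˢ Finset.range 6)).card := by
      refine Finset.card_le_card_of_injOn (fun p => (p.2 / 2, f p.1 p.2)) ?_ ?_
      · rintro ⟨t, o⟩ hp
        simp only [Y, Finset.coe_filter, Finset.mem_product, Finset.mem_range, mem_ofPred_eq] at hp
        obtain ⟨⟨ht, ho⟩, hB⟩ := hp
        have b1 := hf1 t o ht hB
        have b2 := hf2 t o ht hB
        simp only [Finset.coe_product, Finset.coe_range, mem_prod, mem_Iio]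
        have := hB.1
        exact ⟨by omega, by omega, by omega⟩
      · rintro ⟨t, o⟩ hp ⟨t', o'⟩ hp' he
        simp only [Y, Finset.coe_filter, Finset.mem_product, Finset.mem_range, mem_ofPred_eq] at hp
        simp only [Y, Finset.coe_filter, Finset.mem_product, Finset.mem_range, mem_ofPred_eq] at hp'
        obtain ⟨⟨ht, ho⟩, hB⟩ := hp
        obtain ⟨⟨ht', ho'⟩, hB'⟩ := hp'
        simp only [Prod.mk.injEq] at he
        have hoo : o = o' := by
          have := hB.1
          have := hB'.1
          omega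
        subst hoo
        rcases Nat.lt_trichotomy t t' with hlt | heq | hlt
        · exact absurd he.2 (hone t t' o hlt ht' hB hB')
        · rw [heq]
        · exact absurd he.2.symm (hone t' t o hlt ht hB' hB)
    simp only [Finset.card_product, Finset.card_range] at h1
    omega
  have hYsum : Y.card = ∑ t ∈ Finset.range m,
      ((Finset.range N).filter (fun o => Btw (s t) (s (t + 1)) o)).card := by
    simp only [Y]
    rw [Finset.card_filter, Finset.sum_product]
    refine Finset.sum_congr rfl ?_
    intro t _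
    rw [Finset.card_filter]
  calc ∑ t ∈ Finset.range m, dst (s t) (s (t + 1))
      ≤ ∑ t ∈ Finset.range m,
        (2 * ((Finset.range N).filter (fun o => Btw (s t) (s (t + 1)) o)).card + 7) := by
        refine Finset.sum_le_sum ?_
        intro t ht
        rw [Finset.mem_range] at ht
        exact dst_le N _ _ (hs t (by omega)) (hs (t + 1) (by omega))
    _ = 2 * Y.card + 7 * m := by
        rw [Finset.sum_add_distrib, ← Finset.mul_sum, ← hYsum]
        simp
        ring
    _ ≤ 36 * N + 7 * m := by omega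

end Pool.Agent.W5h12.CUB
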