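import Pool.Agent.W5h12.CUB.Count

set_option autoImplicit false

/-!
# The numerical estimate
-/

namespace Pool.Agent.W5h12.CUB

open Finset

theorem slow_lt_factorial (N m : ℕ) (hm : m = 300 * (Nat.sqrt N + 1)) :
    (univ.filter (fun s : Fin (m + 1) → Fin N => tv s ≤ 36 * N + 7 * m)).card <
      (m + 1).factorial := by
  set r := Nat.sqrt N with hr
  have hNr : N < (r + 1) * (r + 1) := Nat.lt_succ_sqrt N
  set c : ℕ := r + 8 with hc
  set L : ℕ := 36 * N + 7 * m with hL
  have hLc : L ≤ c * m := by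
    rw [hL, hc, hm]
    nlinarith
  have hm0 : 0 < m := by omega
  -- the weight
  let z : ℝ := 1 - 1 / ((c : ℝ) + 1)
  have hc0 : (0 : ℝ) < c := by rw [hc]; positivity
  have hz : z = c / (c + 1) := by
    simp only [z]
    field_simp
    ring
  have hz0 : 0 < z := by rw [hz]; positivity
  have hz1 : z < 1 := by
    simp only [z]
    have : 0 < 1 / ((c : ℝ) + 1) := by positivity
    linarith
  have h1 := count_slow N z hz0 hz1 m L
  set A : ℝ := ((univ.filter (fun s : Fin (m + 1) → Fin N => tv s ≤ L)).card : ℝ) with hA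
  have h2 : (2 : ℝ) / (1 - z) = 2 * (c + 1) := by
    simp only [z]
    field_simp
    ring
  rw [h2] at h1
  have hexp : Real.exp (-(m : ℝ)) ≤ z ^ L := by
    have h3 : Real.exp (-(1 / (c : ℝ))) ≤ z := by
      rw [Real.exp_neg, hz, inv_le_comm₀ (Real.exp_pos _) (by positivity), inv_div]
      have := Real.add_one_le_exp (1 / (c : ℝ))
      refine le_trans (le_of_eq ?_) this
      field_simp
      ring
    calc Real.exp (-(m : ℝ)) ≤ Real.exp (L * (-(1 / (c : ℝ)))) := by
          refine Real.exp_le_exp.2 ?_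
          have : (L : ℝ) ≤ c * m := by exact_mod_cast hLc
          have h4 : (L : ℝ) * (1 / c) ≤ m := by
            rw [mul_one_div, div_le_iff₀ hc0]
            linarith
          linarith
      _ = Real.exp (-(1 / (c : ℝ))) ^ L := by rw [← Real.exp_nat_mul]
      _ ≤ z ^ L := pow_le_pow_left₀ (Real.exp_pos _).le h3 L
  have hA0 : 0 ≤ A := by positivity
  have h5 : A * Real.exp (-(m : ℝ)) ≤ N * (2 * (c + 1)) ^ m :=
    (mul_le_mul_of_nonneg_left hexp hA0).trans h1
  have h6 : (m : ℝ) ^ m / m.factorial ≤ Real.exp m :=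
    Real.pow_div_factorial_le_exp (m : ℝ) (by positivity) m
  have hfac : (0 : ℝ) < m.factorial := by exact_mod_cast Nat.factorial_pos m
  have hem : Real.exp (m : ℝ) = Real.exp 1 ^ m := by
    rw [← Real.exp_nat_mul, mul_one]
  have hmm : (0 : ℝ) < (m : ℝ) ^ m := by positivity
  -- `A * m ^ m ≤ N * (m / 2) ^ m * m !`
  have h7 : A * (m : ℝ) ^ m ≤ N * ((m : ℝ) / 2) ^ m * m.factorial := by
    have h8 : A ≤ N * (2 * (c + 1)) ^ m * Real.exp m := by
      have := mul_le_mul_of_nonneg_right h5 (Real.exp_pos (m : ℝ)).le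
      rwa [mul_assoc, ← Real.exp_add, neg_add_cancel, Real.exp_zero, mul_one] at this
    have h9 : (m : ℝ) ^ m ≤ Real.exp m * m.factorial := by
      rwa [div_le_iff₀ hfac] at h6
    have h10 : 2 * ((c : ℝ) + 1) * (Real.exp 1 * Real.exp 1) ≤ (m : ℝ) / 2 := by
      have he1 : Real.exp 1 < 2.72 := lt_trans Real.exp_one_lt_d9 (by norm_num)
      have he2 : Real.exp 1 * Real.exp 1 ≤ 7.4 := by
        have := Real.exp_pos 1
        nlinarith
      have hc' : (c : ℝ) = r + 8 := by rw [hc]; push_cast; ring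
      have hm' : (m : ℝ) = 300 * (r + 1) := by rw [hm]; push_cast; ring
      have hr0 : (0 : ℝ) ≤ r := by positivity
      calc 2 * ((c : ℝ) + 1) * (Real.exp 1 * Real.exp 1) ≤ 2 * ((c : ℝ) + 1) * 7.4 :=
            mul_le_mul_of_nonneg_left he2 (by positivity)
        _ ≤ (m : ℝ) / 2 := by
            rw [hc', hm']
            nlinarith
    calc A * (m : ℝ) ^ m ≤ (N * (2 * (c + 1)) ^ m * Real.exp m) * (Real.exp m * m.factorial) :=
          mul_le_mul h8 h9 hmm.le (by positivity)
      _ = N * (2 * ((c : ℝ) + 1) * (Real.exp 1 * Real.exp 1)) ^ m * m.factorial := by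
          rw [hem, mul_pow (2 * ((c : ℝ) + 1)), mul_pow (Real.exp 1)]
          ring
      _ ≤ N * ((m : ℝ) / 2) ^ m * m.factorial := by
          refine mul_le_mul_of_nonneg_right ?_ hfac.le
          refine mul_le_mul_of_nonneg_left ?_ (by positivity)
          exact pow_le_pow_left₀ (by positivity) h10 m
  have hN2 : (N : ℝ) < 2 ^ m := by
    have h8 : N < 2 ^ m := by
      calc N < (r + 1) * (r + 1) := hNr
        _ ≤ 2 ^ (r + 1) * 2 ^ (r + 1) := Nat.mul_le_mul Nat.lt_two_pow_self.le Nat.lt_two_pow_self.le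
        _ = 2 ^ (2 * (r + 1)) := by rw [← pow_add]; congr 1; ring
        _ ≤ 2 ^ m := Nat.pow_le_pow_right (by norm_num) (by omega)
    exact_mod_cast h8
  have h11 : A * (m : ℝ) ^ m < (m : ℝ) ^ m * m.factorial := by
    refine lt_of_le_of_lt h7 ?_
    refine mul_lt_mul_of_pos_right ?_ hfac
    rw [div_pow]
    rw [mul_div_assoc']
    rw [div_lt_iff₀ (by positivity), mul_comm]
    exact mul_lt_mul_of_pos_left hN2 hmm
  have h12 : A < m.factorial := by
    rw [mul_comm] at h11
    exact lt_of_mul_lt_mul_left h11 hmm.le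
  have h13 : (univ.filter (fun s : Fin (m + 1) → Fin N => tv s ≤ L)).card < m.factorial := by
    rw [hA] at h12
    exact_mod_cast h12
  exact lt_of_lt_of_le h13 (Nat.factorial_le (Nat.le_succ m))

end Pool.Agent.W5h12.CUB
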