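import Pool.Agent.Helper805.CHS.Drawn

set_option autoImplicit false

/-!
# The spiral tube and its rings

The vertices of the tube are `0, ..., N - 1`, with `N` even. Two vertices `i < j` are adjacent if
`j = i + 1`, or `i` is odd and `j = i + 5`, or `i = 0` and `j ∈ {2, 4}`, or `j = N - 1` and
`i ∈ {N - 3, N - 5}`. For every odd `o` the vertices `o, ..., o + 5` form a ring, a cycle which
separates the vertices before `o` from the vertices after `o + 5` in every plane drawing.
-/

namespace Pool.Agent.W5h12.CUB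

open Set

/-- adjacency in the tube, for `i < j` -/
def TA (N i j : ℕ) : Prop :=
  j = i + 1 ∨ (i % 2 = 1 ∧ j = i + 5) ∨ (i = 0 ∧ (j = 2 ∨ j = 4)) ∨
    (j + 1 = N ∧ (i + 3 = N ∨ i + 5 = N))

/-- equal or adjacent -/
def Cell (N i j : ℕ) : Prop := i = j ∨ TA N i j ∨ TA N j i

/-- plane drawings of the tube, as functions on the natural numbers -/
structure Pl (N : ℕ) (D : ℕ → ℝ × ℝ) : Prop where
  inj : ∀ i < N, ∀ j < N, i ≠ j → D i ≠ D j
  vtx : ∀ i < N, ∀ j < N, ∀ k < N, TA N i j → k ≠ i → k ≠ j → D k ∉ segment ℝ (D i) (D j)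
  edg : ∀ i < N, ∀ j < N, ∀ k < N, ∀ l < N, TA N i j → TA N k l → i ≠ k → i ≠ l → j ≠ k → j ≠ l →
    Disjoint (segment ℝ (D i) (D j)) (segment ℝ (D k) (D l))

theorem Pl.vtx' {N : ℕ} {D : ℕ → ℝ × ℝ} (h : Pl N D) {i j k : ℕ} (hi : i < N) (hj : j < N)
    (hk : k < N) (hc : Cell N i j) (hki : k ≠ i) (hkj : k ≠ j) : D k ∉ segment ℝ (D i) (D j) := by
  rcases hc with rfl | hc | hc
  · rw [segment_same]
    exact h.inj k hk i hi hki
  · exact h.vtx i hi j hj k hk hc hki hkj
  · rw [segment_symm ℝ (D i) (D j)]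
    exact h.vtx j hj i hi k hk hc hkj hki

theorem Pl.cells {N : ℕ} {D : ℕ → ℝ × ℝ} (h : Pl N D) {i j k l : ℕ} (hi : i < N) (hj : j < N)
    (hk : k < N) (hl : l < N) (hc : Cell N i j) (hc' : Cell N k l) (hik : i ≠ k) (hil : i ≠ l)
    (hjk : j ≠ k) (hjl : j ≠ l) : Disjoint (segment ℝ (D i) (D j)) (segment ℝ (D k) (D l)) := by
  rcases hc with rfl | hc
  · rw [segment_same, disjoint_singleton_left]
    exact h.vtx' hk hl hi hc' hik hil
  rcases hc' with rfl | hc'
  · rw [segment_same ℝ (D k), disjoint_singleton_right]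
    exact h.vtx' hi hj hk (Or.inr hc) hik.symm hjk.symm
  rcases hc with hc | hc <;> rcases hc' with hc' | hc'
  · exact h.edg i hi j hj k hk l hl hc hc' hik hil hjk hjl
  · rw [segment_symm ℝ (D k) (D l)]
    exact h.edg i hi j hj l hl k hk hc hc' hil hik hjl hjk
  · rw [segment_symm ℝ (D i) (D j)]
    exact h.edg j hj i hi k hk l hl hc hc' hjk hjl hik hil
  · rw [segment_symm ℝ (D i) (D j), segment_symm ℝ (D k) (D l)]
    exact h.edg j hj i hi l hl k hk hc hc' hjl hjk hil hik

/-- the part of the drawing spanned by a set of vertices -/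
def Dr (N : ℕ) (D : ℕ → ℝ × ℝ) (U : Set ℕ) : Set (ℝ × ℝ) :=
  {z | ∃ i j, i ∈ U ∧ j ∈ U ∧ Cell N i j ∧ z ∈ segment ℝ (D i) (D j)}

theorem Dr.disjoint {N : ℕ} {D : ℕ → ℝ × ℝ} (h : Pl N D) {U W : Set ℕ} (hU : ∀ i ∈ U, i < N)
    (hW : ∀ i ∈ W, i < N) (hUW : ∀ i ∈ U, i ∉ W) : Disjoint (Dr N D U) (Dr N D W) := by
  rw [Set.disjoint_left]
  rintro z ⟨i, j, hi, hj, hc, hz⟩ ⟨k, l, hk, hl, hc', hz'⟩
  have := h.cells (hU i hi) (hU j hj) (hW k hk) (hW l hl) hc hc'
    (fun e => hUW i hi (e ▸ hk)) (fun e => hUW i hi (e ▸ hl)) (fun e => hUW j hj (e ▸ hk))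
    (fun e => hUW j hj (e ▸ hl))
  exact Set.disjoint_left.1 this hz hz'

theorem Dr.mono {N : ℕ} {D : ℕ → ℝ × ℝ} {U W : Set ℕ} (h : U ⊆ W) : Dr N D U ⊆ Dr N D W := by
  rintro z ⟨i, j, hi, hj, hc, hz⟩
  exact ⟨i, j, h hi, h hj, hc, hz⟩

theorem Dr.joined {N : ℕ} {D : ℕ → ℝ × ℝ} {U : Set ℕ} {i j : ℕ} (hi : i ∈ U) (hj : j ∈ U)
    (hc : Cell N i j) : JoinedIn (Dr N D U) (D i) (D j) :=
  JoinedIn.of_segment_subset (fun _ hz => ⟨i, j, hi, hj, hc, hz⟩)

theorem Cell.succ (N i : ℕ) : Cell N i (i + 1) := Or.inr (Or.inl (Or.inl rfl))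

theorem Dr.joined_chain {N : ℕ} {D : ℕ → ℝ × ℝ} {U : Set ℕ} (lo hi : ℕ)
    (hU : ∀ i, lo ≤ i → i ≤ hi → i ∈ U) : ∀ d, ∀ i, lo ≤ i → i + d ≤ hi →
    JoinedIn (Dr N D U) (D i) (D (i + d)) := by
  intro d
  induction d with
  | zero =>
    intro i h1 h2
    exact Dr.joined (hU i h1 (by omega)) (hU i h1 (by omega)) (Or.inl rfl)
  | succ d ih =>
    intro i h1 h2
    refine (ih i h1 (by omega)).trans ?_
    exact Dr.joined (hU _ (by omega) (by omega)) (hU _ (by omega) (by omega)) (Cell.succ N (i + d))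

theorem Dr.joined_chain' {N : ℕ} {D : ℕ → ℝ × ℝ} {U : Set ℕ} (lo hi : ℕ)
    (hU : ∀ i, lo ≤ i → i ≤ hi → i ∈ U) {i j : ℕ} (h1 : lo ≤ i) (h2 : i ≤ hi) (h3 : lo ≤ j)
    (h4 : j ≤ hi) : JoinedIn (Dr N D U) (D i) (D j) := by
  rcases Nat.le_total i j with h | h
  · have := Dr.joined_chain (N := N) (D := D) lo hi hU (j - i) i h1 (by omega)
    rwa [show i + (j - i) = j by omega] at this
  · have := Dr.joined_chain (N := N) (D := D) lo hi hU (i - j) j h3 (by omega)
    rw [show j + (i - j) = i by omega] at this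
    exact this.symm

/-- the van Kampen obstruction in `ℝ × ℝ`, for sets of the form `Dr` and one exceptional arc -/
theorem k33' (p : Fin 6 → ℝ × ℝ) (S : Fin 6 → Fin 6 → Set (ℝ × ℝ))
    (hS : ∀ a b, a < 3 → 3 ≤ b → JoinedIn (S a b) (p a) (p b))
    (hdis : ∀ a b c d, a < 3 → 3 ≤ b → c < 3 → 3 ≤ d → a ≠ c → b ≠ d →
      Disjoint (S a b) (S c d)) : False := by
  let φ := Complex.equivRealProdCLM.symm
  refine Pool.Agent.Helper805.CHS.VK.k33_joined (fun a => φ (p a)) (fun a b => φ '' S a b) ?_ ?_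
  · intro a b ha hb
    exact (hS a b ha hb).map φ.continuous
  · intro a b c d ha hb hc hd hac hbd
    exact (Set.disjoint_image_iff φ.injective).2 (hdis a b c d ha hb hc hd hac hbd)

theorem ring_cross {N : ℕ} {D : ℕ → ℝ × ℝ} (hN : N % 2 = 0) (h : Pl N D) (o : ℕ) (ho : o % 2 = 1)
    (s s' : ℕ) (hs : s < o) (hs' : o + 5 < s') (hs'N : s' < N) :
    ∃ i j, o ≤ i ∧ i ≤ o + 5 ∧ o ≤ j ∧ j ≤ o + 5 ∧ Cell N i j ∧
      (segment ℝ (D i) (D j) ∩ segment ℝ (D s) (D s')).Nonempty := by
  by_contra hcon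
  push Not at hcon
  -- the vertex sets of the nine arcs
  let U : Fin 6 → Fin 6 → Set ℕ := fun a b =>
    if a = 0 ∧ b = 3 then {o + 1, o + 2}
    else if a = 0 ∧ b = 4 then {o + 1, o, o + 5, o + 4}
    else if a = 0 ∧ b = 5 then {i | i = o + 1 ∨ i < o}
    else if a = 1 ∧ b = 3 then {o + 3, o + 2}
    else if a = 1 ∧ b = 4 then {o + 3, o + 4}
    else if a = 1 ∧ b = 5 then {i | i = o + 3 ∨ i < o}
    else if a = 2 ∧ b = 3 then {i | i = o + 2 ∨ (o + 5 < i ∧ i < N)}
    else if a = 2 ∧ b = 4 then {i | i = o + 4 ∨ (o + 5 < i ∧ i < N)}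
    else ∅
  let S : Fin 6 → Fin 6 → Set (ℝ × ℝ) := fun a b =>
    if a = 2 ∧ b = 5 then segment ℝ (D s) (D s') else Dr N D (U a b)
  let p : Fin 6 → ℝ × ℝ := fun a =>
    if a = 0 then D (o + 1) else if a = 1 then D (o + 3) else if a = 2 then D s'
    else if a = 3 then D (o + 2) else if a = 4 then D (o + 4) else D s
  have hcases : ∀ a b : Fin 6, a < 3 → 3 ≤ b → (a = 0 ∧ b = 3) ∨ (a = 0 ∧ b = 4) ∨
      (a = 0 ∧ b = 5) ∨ (a = 1 ∧ b = 3) ∨ (a = 1 ∧ b = 4) ∨ (a = 1 ∧ b = 5) ∨
      (a = 2 ∧ b = 3) ∨ (a = 2 ∧ b = 4) ∨ (a = 2 ∧ b = 5) := by decide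
  have hin : JoinedIn (Dr N D {i | i < o}) (D 0) (D s) :=
    Dr.joined_chain' 0 (o - 1) (fun i _ h2 => by simp only [mem_ofPred_eq]; omega) (by omega)
      (by omega) (by omega) (by omega)
  have hUN : ∀ a b, ∀ i ∈ U a b, i < N := by
    intro a b i hi
    simp only [U] at hi
    split_ifs at hi <;> simp only [mem_insert_iff, mem_singleton_iff, mem_ofPred_eq,
      mem_empty_iff_false] at hi <;> omega
  refine k33' p S ?_ ?_
  · intro a b ha hb
    rcases hcases a b ha hb with ⟨rfl, rfl⟩ | ⟨rfl, rfl⟩ | ⟨rfl, rfl⟩ | ⟨rfl, rfl⟩ | ⟨rfl, rfl⟩ |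
      ⟨rfl, rfl⟩ | ⟨rfl, rfl⟩ | ⟨rfl, rfl⟩ | ⟨rfl, rfl⟩
    · simp only [S, U, p]
      simp
      exact Dr.joined (by simp) (by simp) (Cell.succ N (o + 1))
    · simp only [S, U, p]
      simp
      refine (Dr.joined (i := o + 1) (j := o) (by simp) (by simp) ?_).trans
        ((Dr.joined (i := o) (j := o + 5) (by simp) (by simp) ?_).trans
          (Dr.joined (i := o + 5) (j := o + 4) (by simp) (by simp) ?_))
      · exact Or.inr (Or.inr (Or.inl rfl))
      · exact Or.inr (Or.inl (Or.inr (Or.inl ⟨ho, rfl⟩)))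
      · exact Or.inr (Or.inr (Or.inl rfl))
    · simp only [S, U, p]
      simp
      by_cases h5 : 5 ≤ o
      · refine (Dr.joined (i := o + 1) (j := o - 4) (by simp) (by simp; omega) ?_).trans ?_
        · right; right; right; left
          omega
        · exact Dr.joined_chain' 0 (o - 1) (fun i _ h2 => by simp; omega) (by omega) (by omega)
            (by omega) (by omega)
      · refine (Dr.joined (i := o + 1) (j := 0) (by simp) (by simp; omega) ?_).trans ?_
        · right; right; right; right; left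
          omega
        · exact Dr.joined_chain' 0 (o - 1) (fun i _ h2 => by simp; omega) (by omega) (by omega)
            (by omega) (by omega)
    · simp only [S, U, p]
      simp
      exact Dr.joined (by simp) (by simp) (Or.inr (Or.inr (Or.inl rfl)))
    · simp only [S, U, p]
      simp
      exact Dr.joined (by simp) (by simp) (Cell.succ N (o + 3))
    · simp only [S, U, p]
      simp
      by_cases h3 : 3 ≤ o
      · refine (Dr.joined (i := o + 3) (j := o - 2) (by simp) (by simp; omega) ?_).trans ?_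
        · right; right; right; left
          omega
        · exact Dr.joined_chain' 0 (o - 1) (fun i _ h2 => by simp; omega) (by omega) (by omega)
            (by omega) (by omega)
      · refine (Dr.joined (i := o + 3) (j := 0) (by simp) (by simp; omega) ?_).trans ?_
        · right; right; right; right; left
          omega
        · exact Dr.joined_chain' 0 (o - 1) (fun i _ h2 => by simp; omega) (by omega) (by omega)
            (by omega) (by omega)
    · simp only [S, U, p]
      simp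
      by_cases h7 : o + 7 < N
      · refine JoinedIn.symm ((Dr.joined (i := o + 2) (j := o + 7) (by simp) (by simp; omega)
          ?_).trans ?_)
        · right; left; right; left
          omega
        · exact Dr.joined_chain' (o + 6) (N - 1) (fun i _ h2 => by simp; omega) (by omega)
            (by omega) (by omega) (by omega)
      · refine JoinedIn.symm ((Dr.joined (i := o + 2) (j := N - 1) (by simp) (by simp; omega)
          ?_).trans ?_)
        · right; left; right; right; right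
          omega
        · exact Dr.joined_chain' (o + 6) (N - 1) (fun i _ h2 => by simp; omega) (by omega)
            (by omega) (by omega) (by omega)
    · simp only [S, U, p]
      simp
      by_cases h7 : o + 9 < N
      · refine JoinedIn.symm ((Dr.joined (i := o + 4) (j := o + 9) (by simp) (by simp; omega)
          ?_).trans ?_)
        · right; left; right; left
          omega
        · exact Dr.joined_chain' (o + 6) (N - 1) (fun i _ h2 => by simp; omega) (by omega)
            (by omega) (by omega) (by omega)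
      · refine JoinedIn.symm ((Dr.joined (i := o + 4) (j := N - 1) (by simp) (by simp; omega)
          ?_).trans ?_)
        · right; left; right; right; right
          omega
        · exact Dr.joined_chain' (o + 6) (N - 1) (fun i _ h2 => by simp; omega) (by omega)
            (by omega) (by omega) (by omega)
    · simp only [S, U, p]
      simp
      rw [segment_symm]
      exact JoinedIn.of_segment_subset (fun _ hz => hz)
  · have key : ∀ a b c d : Fin 6, a < 3 → 3 ≤ b → c < 3 → 3 ≤ d → a ≠ c → b ≠ d →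
        ¬ (c = 2 ∧ d = 5) → Disjoint (S a b) (S c d) := by
      intro a b c d ha hb hc hd hac hbd hn
      have hSc : S c d = Dr N D (U c d) := by
        simp only [S]
        rw [if_neg hn]
      by_cases hn' : a = 2 ∧ b = 5
      · have hSa : S a b = segment ℝ (D s) (D s') := by
          simp only [S]
          rw [if_pos hn']
        rw [hSa, hSc, Set.disjoint_left]
        rintro z hz ⟨i, j, hi, hj, hcell, hz'⟩
        have hUr : ∀ i ∈ U c d, o ≤ i ∧ i ≤ o + 5 := by
          intro i hi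
          rcases hcases c d hc hd with ⟨rfl, rfl⟩ | ⟨rfl, rfl⟩ | ⟨rfl, rfl⟩ | ⟨rfl, rfl⟩ |
            ⟨rfl, rfl⟩ | ⟨rfl, rfl⟩ | ⟨rfl, rfl⟩ | ⟨rfl, rfl⟩ | ⟨rfl, rfl⟩
          · simp [U] at hi; omega
          · simp [U] at hi; omega
          · exact absurd hn'.2 hbd
          · simp [U] at hi; omega
          · simp [U] at hi; omega
          · exact absurd hn'.2 hbd
          · exact absurd hn'.1 hac
          · exact absurd hn'.1 hac
          · exact absurd hn'.1 hac
        have h1 := hUr i hi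
        have h2 := hUr j hj
        have h3 := hcon i j h1.1 h1.2 h2.1 h2.2 hcell
        exact (Set.eq_empty_iff_forall_notMem.1 h3 z) ⟨hz', hz⟩
      · have hSa : S a b = Dr N D (U a b) := by
          simp only [S]
          rw [if_neg hn']
        rw [hSa, hSc]
        refine Dr.disjoint h (hUN a b) (hUN c d) ?_
        intro i hi hi'
        rcases hcases a b ha hb with ⟨rfl, rfl⟩ | ⟨rfl, rfl⟩ | ⟨rfl, rfl⟩ | ⟨rfl, rfl⟩ |
            ⟨rfl, rfl⟩ | ⟨rfl, rfl⟩ | ⟨rfl, rfl⟩ | ⟨rfl, rfl⟩ | ⟨rfl, rfl⟩ <;>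
          rcases hcases c d hc hd with ⟨rfl, rfl⟩ | ⟨rfl, rfl⟩ | ⟨rfl, rfl⟩ | ⟨rfl, rfl⟩ |
            ⟨rfl, rfl⟩ | ⟨rfl, rfl⟩ | ⟨rfl, rfl⟩ | ⟨rfl, rfl⟩ | ⟨rfl, rfl⟩ <;>
          first
          | exact absurd rfl hac
          | exact absurd rfl hbd
          | exact absurd ⟨rfl, rfl⟩ hn
          | exact absurd ⟨rfl, rfl⟩ hn'
          | (simp [U] at hi hi'; omega)
    intro a b c d ha hb hc hd hac hbd
    by_cases hn : c = 2 ∧ d = 5
    · have hn' : ¬ (a = 2 ∧ b = 5) := fun h' => hac (h'.1.trans hn.1.symm)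
      exact (key c d a b hc hd ha hb hac.symm hbd.symm hn').symm
    · exact key a b c d ha hb hc hd hac hbd hn

end Pool.Agent.W5h12.CUB
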