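import Pool.Agent.W5h12.CUB.Line
import Pool.Agent.W5h12.CUB.Num
import Pool.Agent.W5h12.CUB.Defs

set_option autoImplicit false

/-!
# The tube has a drawing in which few vertices can be kept
-/

namespace Pool.Agent.W5h12.CUB

open Set

theorem TA.lt {N i j : ℕ} (h : TA N i j) : i < j := by
  unfold TA at h
  omega

/-- the spiral tube -/
def tube (N : ℕ) : SimpleGraph (Fin N) where
  Adj i j := TA N i j ∨ TA N j i
  symm := ⟨fun i j h => h.symm⟩
  loopless := ⟨fun i h => by rcases h with h | h <;> exact absurd h.lt (lt_irrefl _)⟩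

/-- extend a drawing to all natural numbers -/
noncomputable def ext {N : ℕ} (δ : Fin N → ℝ × ℝ) (i : ℕ) : ℝ × ℝ := if h : i < N then δ ⟨i, h⟩ else 0

theorem ext_of {N : ℕ} (δ : Fin N → ℝ × ℝ) {i : ℕ} (h : i < N) : ext δ i = δ ⟨i, h⟩ := by
  rw [ext, dif_pos h]

theorem IsPlane.pl {N : ℕ} {δ : Fin N → ℝ × ℝ} (h : IsPlane (tube N) δ) : Pl N (ext δ) where
  inj := by
    intro i hi j hj hij he
    rw [ext_of δ hi, ext_of δ hj] at he
    exact hij (congrArg Fin.val (h.inj he))
  vtx := by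
    intro i hi j hj k hk ht hki hkj hmem
    rw [ext_of δ hi, ext_of δ hj, ext_of δ hk] at hmem
    rcases h.vert ⟨i, hi⟩ ⟨j, hj⟩ ⟨k, hk⟩ (Or.inl ht) hmem with he | he
    · exact hki (congrArg Fin.val he)
    · exact hkj (congrArg Fin.val he)
  edg := by
    intro i hi j hj k hk l hl ht ht' hik hil hjk hjl
    rw [ext_of δ hi, ext_of δ hj, ext_of δ hk, ext_of δ hl, Set.disjoint_left]
    intro p hp hp'
    obtain ⟨v, hv, hv', -⟩ := h.meet ⟨i, hi⟩ ⟨j, hj⟩ ⟨k, hk⟩ ⟨l, hl⟩ (Or.inl ht) (Or.inl ht')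
      (by
        intro he
        rw [Sym2.eq_iff] at he
        rcases he with ⟨he, -⟩ | ⟨he, -⟩
        · exact hik (congrArg Fin.val he)
        · exact hil (congrArg Fin.val he)) p hp hp'
    rw [Sym2.mem_iff] at hv hv'
    rcases hv with rfl | rfl <;> rcases hv' with he | he
    · exact hik (congrArg Fin.val he)
    · exact hil (congrArg Fin.val he)
    · exact hjk (congrArg Fin.val he)
    · exact hjl (congrArg Fin.val he)

theorem exists_bad_drawing (N : ℕ) (hN : N % 2 = 0) :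
    ∃ π : Equiv.Perm (Fin N), ∀ (δ' : Fin N → ℝ × ℝ) (S : Finset (Fin N)), IsPlane (tube N) δ' →
      (∀ v ∈ S, δ' v = (((π v : ℕ) : ℝ), 0)) → S.card ≤ 300 * (Nat.sqrt N + 1) := by
  classical
  set m := 300 * (Nat.sqrt N + 1) with hm
  obtain ⟨π, hπ⟩ := exists_perm N (m + 1)
    (Finset.univ.filter (fun s : Fin (m + 1) → Fin N => tv s ≤ 36 * N + 7 * m))
    (slow_lt_factorial N m hm)
  refine ⟨π, ?_⟩
  intro δ' S hplane hfix
  by_contra hcon
  push Not at hcon
  obtain ⟨S', hS', hcard⟩ := Finset.exists_subset_card_eq (show m + 1 ≤ S.card from hcon)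
  have hTcard : (S'.map π.toEmbedding).card = m + 1 := by rw [Finset.card_map, hcard]
  let emb := (S'.map π.toEmbedding).orderEmbOfFin hTcard
  let s : Fin (m + 1) → Fin N := fun t => π.symm (emb t)
  have hπs : ∀ t, π (s t) = emb t := fun t => by simp [s]
  have hmem : ∀ t, s t ∈ S := by
    intro t
    have h1 := (S'.map π.toEmbedding).orderEmbOfFin_mem hTcard t
    rw [Finset.mem_map] at h1
    obtain ⟨v, hv, hv'⟩ := h1
    have : s t = v := by
      simp only [s, emb]
      rw [← hv']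
      simp
    rw [this]
    exact hS' hv
  have hmono : StrictMono (fun t => π (s t)) := by
    intro a b hab
    simp only [hπs]
    exact emb.strictMono hab
  refine hπ s ?_ hmono
  rw [Finset.mem_filter]
  refine ⟨Finset.mem_univ _, ?_⟩
  -- the sequence on the natural numbers
  let sN : ℕ → ℕ := fun t => if h : t < m + 1 then (s ⟨t, h⟩ : ℕ) else 0
  let x : ℕ → ℝ := fun t => if h : t < m + 1 then ((π (s ⟨t, h⟩) : ℕ) : ℝ) else 0
  have hsN : ∀ t (h : t < m + 1), sN t = s ⟨t, h⟩ := fun t h => by simp only [sN]; rw [dif_pos h]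
  have hx : ∀ t (h : t < m + 1), x t = ((π (s ⟨t, h⟩) : ℕ) : ℝ) := fun t h => by
    simp only [x]; rw [dif_pos h]
  have h1 := line_bound hN hplane.pl m sN x
    (fun t ht => by rw [hsN t (by omega)]; exact (s _).2)
    (fun t ht => by
      rw [hx t (by omega), hx (t + 1) (by omega)]
      have : (⟨t, by omega⟩ : Fin (m + 1)) < ⟨t + 1, by omega⟩ := by simp
      exact_mod_cast hmono this)
    (fun t ht => by
      rw [hsN t (by omega), hx t (by omega), ext_of δ' (s _).2]
      exact hfix _ (hmem _))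
  refine le_trans (le_of_eq ?_) h1
  rw [Finset.sum_range]
  unfold tv
  refine Finset.sum_congr rfl ?_
  intro t _
  rw [hsN t (by omega), hsN (t + 1) (by omega)]
  rfl

theorem fixG_tube (N : ℕ) (hN : N % 2 = 0) : fixG (tube N) ≤ 300 * (Nat.sqrt N + 1) := by
  obtain ⟨π, hπ⟩ := exists_bad_drawing N hN
  have hinj : Function.Injective (fun v : Fin N => ((((π v : Fin N) : ℕ) : ℝ), (0 : ℝ))) := by
    intro a b hab
    simp only [Prod.mk.injEq, Nat.cast_inj, and_true] at hab
    exact π.injective (Fin.ext hab)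
  have h1 : fixG (tube N) ≤ fixDraw (tube N) (fun v : Fin N => ((((π v : Fin N) : ℕ) : ℝ), (0 : ℝ))) :=
    Nat.sInf_le ⟨_, hinj, rfl⟩
  refine h1.trans ?_
  refine csSup_le' ?_
  rintro k ⟨δ', S, hplane, rfl, hS⟩
  exact hπ δ' S hplane hS

end Pool.Agent.W5h12.CUB
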